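import Pool.Agent.E8helper93.LS.Riesz
import Pool.Agent.H78R2.ET.Defs

/-!
Discrepancy of the points `r j a / m j`.
-/

set_option autoImplicit false

namespace Pool.Agent.E8helper93.LS

open Finset
open Pool.Agent.H78R2.ET (ee norm_ee cnt Uneven exists_majorant)

/-- one phase -/
theorem phase_exc {F : Finset ℕ} {N R : ℕ} {m : ℕ → ℕ} (hm : Moduli m) {J : Finset ℕ}
    (hJ : ∏ j ∈ J, m j ≤ N) {r : ℕ → ℤ} (hr : ∀ j ∈ J, ¬ (m j : ℤ) ∣ r j)
    (hF : ∀ a ∈ F, a ≤ N) (hrep : ∀ s, ((F ×ˢ F).filter (fun x => x.1 + x.2 = s)).card ≤ R)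
    {δ : ℝ} (hδ0 : 0 < δ) (hδ : δ ≤ 1) {ω : ℂ} (hω : ‖ω‖ = 1)
    (he : ∀ a ∈ F, δ * J.card / 2 ≤ (ω * ∑ j ∈ J, ee ((r j : ℝ) / m j * a)).re) :
    (F.card : ℝ) ≤ √(3 * R * N) * Real.exp (-(δ ^ 4 / 256 * J.card)) := by
  rcases F.eq_empty_or_nonempty with rfl | hne
  · rw [card_empty, Nat.cast_zero]
    positivity
  have hF0 : 0 < F.card := card_pos.2 hne
  have hFr : (0 : ℝ) < F.card := by exact_mod_cast hF0
  have h1 := riesz hm hJ hr hF hF0 hrep (η := δ ^ 2 / 16) (by positivity) (by nlinarith)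
  set S : ℕ → ℂ := fun j => ∑ a ∈ F, ee ((r j : ℝ) / m j * a) with hS
  have h2 : (F.card : ℝ) * (δ * J.card / 2) ≤ ∑ j ∈ J, ‖S j‖ := by
    have h3 : (F.card : ℝ) * (δ * J.card / 2) ≤
        ∑ a ∈ F, (ω * ∑ j ∈ J, ee ((r j : ℝ) / m j * a)).re := by
      rw [← nsmul_eq_mul]
      exact card_nsmul_le_sum _ _ _ he
    refine h3.trans ?_
    rw [← Complex.re_sum, ← mul_sum, sum_comm]
    refine (Complex.re_le_norm _).trans ?_
    rw [norm_mul, hω, one_mul]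
    exact norm_sum_le _ _
  have h3 : (∑ j ∈ J, ‖S j‖) ^ 2 ≤ J.card * ∑ j ∈ J, ‖S j‖ ^ 2 := sq_sum_le_card_mul_sum_sq
  have h4 : (F.card : ℝ) ^ 2 * (δ ^ 2 * J.card / 4) ≤ ∑ j ∈ J, ‖S j‖ ^ 2 := by
    rcases Nat.eq_zero_or_pos J.card with h | h
    · rw [h, Nat.cast_zero]
      have : 0 ≤ ∑ j ∈ J, ‖S j‖ ^ 2 := sum_nonneg fun j _ => by positivity
      simpa using this
    · have hJr : (0 : ℝ) < J.card := by exact_mod_cast h
      have h5 : ((F.card : ℝ) * (δ * J.card / 2)) ^ 2 ≤ J.card * ∑ j ∈ J, ‖S j‖ ^ 2 := by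
        refine le_trans ?_ h3
        gcongr
      have h6 : ((F.card : ℝ) * (δ * J.card / 2)) ^ 2 =
          J.card * ((F.card : ℝ) ^ 2 * (δ ^ 2 * J.card / 4)) := by ring
      rw [h6] at h5
      exact le_of_mul_le_mul_left h5 hJr
  have h5 : δ ^ 4 / 128 * J.card ≤ δ ^ 2 / 16 * (∑ j ∈ J, ‖S j‖ ^ 2) / (F.card : ℝ) ^ 2 -
      2 * (δ ^ 2 / 16) ^ 2 * J.card := by
    have h7 : δ ^ 2 * J.card / 4 ≤ (∑ j ∈ J, ‖S j‖ ^ 2) / (F.card : ℝ) ^ 2 := by
      rw [le_div_iff₀ (by positivity), mul_comm]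
      exact h4
    have h6 : δ ^ 2 / 16 * (δ ^ 2 * J.card / 4) ≤
        δ ^ 2 / 16 * (∑ j ∈ J, ‖S j‖ ^ 2) / (F.card : ℝ) ^ 2 := by
      rw [mul_div_assoc (δ ^ 2 / 16)]
      exact mul_le_mul_of_nonneg_left h7 (by positivity)
    nlinarith
  have h6 : (F.card : ℝ) ^ 2 * Real.exp (δ ^ 4 / 128 * J.card) ≤ 3 * R * N := by
    refine le_trans ?_ h1
    gcongr
  have h7 : (F.card : ℝ) ^ 2 ≤ (√(3 * R * N) * Real.exp (-(δ ^ 4 / 256 * J.card))) ^ 2 := by
    rw [mul_pow, Real.sq_sqrt (by positivity), ← Real.exp_nat_mul]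
    have h8 : ((2 : ℕ) : ℝ) * -(δ ^ 4 / 256 * J.card) = -(δ ^ 4 / 128 * J.card) := by
      push_cast
      ring
    rw [h8, Real.exp_neg, ← div_eq_mul_inv, le_div_iff₀ (Real.exp_pos _)]
    exact h6
  exact (pow_le_pow_iff_left₀ (by positivity) (by positivity) (by norm_num)).1 h7

/-- large exponential sums -/
theorem char_exc {F : Finset ℕ} {N R : ℕ} {m : ℕ → ℕ} (hm : Moduli m) {J : Finset ℕ}
    (hJ : ∏ j ∈ J, m j ≤ N) {r : ℕ → ℤ} (hr : ∀ j ∈ J, ¬ (m j : ℤ) ∣ r j)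
    (hF : ∀ a ∈ F, a ≤ N) (hrep : ∀ s, ((F ×ˢ F).filter (fun x => x.1 + x.2 = s)).card ≤ R)
    {δ : ℝ} (hδ0 : 0 < δ) (hδ : δ ≤ 1)
    (he : ∀ a ∈ F, δ * J.card ≤ ‖∑ j ∈ J, ee ((r j : ℝ) / m j * a)‖) :
    (F.card : ℝ) ≤ 4 * (√(3 * R * N) * Real.exp (-(δ ^ 4 / 256 * J.card))) := by
  classical
  let E : ℕ → ℂ := fun a => ∑ j ∈ J, ee ((r j : ℝ) / m j * a)
  let P : ℂ → Finset ℕ := fun ω => F.filter (fun a => δ * J.card / 2 ≤ (ω * E a).re)
  have hP : ∀ ω : ℂ, ‖ω‖ = 1 → ((P ω).card : ℝ) ≤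
      √(3 * R * N) * Real.exp (-(δ ^ 4 / 256 * J.card)) := by
    intro ω hω
    refine phase_exc hm hJ hr (fun a ha => hF a (mem_filter.1 ha).1) (fun s => ?_) hδ0 hδ hω
      (fun a ha => (mem_filter.1 ha).2)
    refine (card_le_card ?_).trans (hrep s)
    exact filter_subset_filter _ (product_subset_product (filter_subset _ _) (filter_subset _ _))
  have hcov : F ⊆ ((P 1 ∪ P (-1)) ∪ P Complex.I) ∪ P (-Complex.I) := by
    intro a ha
    have h1 : δ * J.card ≤ |(E a).re| + |(E a).im| :=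
      (he a ha).trans (Complex.norm_le_abs_re_add_abs_im _)
    simp only [mem_union, P, mem_filter, one_mul, neg_mul, Complex.neg_re, Complex.I_mul_re,
      neg_neg]
    by_contra hcon
    push Not at hcon
    obtain ⟨⟨⟨c1, c2⟩, c3⟩, c4⟩ := hcon
    have d1 := c1 ha
    have d2 := c2 ha
    have d3 := c3 ha
    have d4 := c4 ha
    have e1 : |(E a).re| < δ * J.card / 2 := abs_lt.2 ⟨by linarith, d1⟩
    have e2 : |(E a).im| < δ * J.card / 2 := abs_lt.2 ⟨by linarith, d4⟩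
    linarith
  have h1 : (F.card : ℝ) ≤ (P 1).card + (P (-1)).card + (P Complex.I).card +
      (P (-Complex.I)).card := by
    have h2 := card_le_card hcov
    have h3 := card_union_le ((P 1 ∪ P (-1)) ∪ P Complex.I) (P (-Complex.I))
    have h4 := card_union_le (P 1 ∪ P (-1)) (P Complex.I)
    have h5 := card_union_le (P 1) (P (-1))
    have h6 : F.card ≤ (P 1).card + (P (-1)).card + (P Complex.I).card +
      (P (-Complex.I)).card := by omega
    exact_mod_cast h6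
  have h2 := hP 1 norm_one
  have h3 := hP (-1) (by rw [norm_neg, norm_one])
  have h4 := hP Complex.I Complex.norm_I
  have h5 := hP (-Complex.I) (by rw [norm_neg, Complex.norm_I])
  linarith

/-- an excess over one interval -/
theorem weyl_one {α β ε : ℝ} (hαβ : α ≤ β) (hε : 0 < ε) :
    ∃ (H : ℕ) (L : ℝ), 0 ≤ L ∧ ∀ (J : Finset ℕ) (x : ℕ → ℝ), 0 < J.card →
      (β - α + 2 * ε) * J.card ≤ cnt J x α β → ∀ κ : ℝ, 0 < κ → κ * L < ε →
      ∃ n : ℤ, n ≠ 0 ∧ n.natAbs ≤ H ∧ κ * J.card ≤ ‖∑ j ∈ J, ee (n * x j)‖ := by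
  classical
  obtain ⟨c, hc1, hc2⟩ := exists_majorant α β ε hαβ hε
  refine ⟨c.support.sup Int.natAbs, ∑ n ∈ c.support, ‖c n‖, sum_nonneg fun _ _ => norm_nonneg _, ?_⟩
  intro J x hJ hcnt κ hκ0 hκ
  by_contra hcon
  push Not at hcon
  have hJr : (0 : ℝ) < J.card := by exact_mod_cast hJ
  have h1 : (cnt J x α β : ℝ) ≤ ∑ j ∈ J, (c.sum (fun n z => z * ee (n * x j))).re := by
    unfold cnt
    rw [card_filter]
    push_cast
    exact sum_le_sum fun j _ => hc1 (x j)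
  have h2 : ∑ j ∈ J, (c.sum (fun n z => z * ee (n * x j))).re =
      ∑ n ∈ c.support, (c n * ∑ j ∈ J, ee (n * x j)).re := by
    rw [← Complex.re_sum]
    unfold Finsupp.sum
    rw [sum_comm, Complex.re_sum]
    exact sum_congr rfl fun n _ => by rw [mul_sum]
  have h3 : ∀ n ∈ c.support, (c n * ∑ j ∈ J, ee (n * x j)).re ≤
      (if n = 0 then (c 0).re * J.card else 0) + ‖c n‖ * (κ * J.card) := by
    intro n hn
    split_ifs with h
    · subst h
      have h4 : ∑ j ∈ J, ee (((0 : ℤ) : ℝ) * x j) = (J.card : ℂ) := by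
        have h5 : ∀ j ∈ J, ee (((0 : ℤ) : ℝ) * x j) = 1 := by
          intro j _
          rw [Int.cast_zero, zero_mul]
          have := ee_int 0
          rwa [Int.cast_zero] at this
        rw [sum_congr rfl h5, sum_const, nsmul_eq_mul, mul_one]
      rw [h4]
      have h5 : (c 0 * (J.card : ℂ)).re = (c 0).re * J.card := by
        rw [Complex.mul_re, Complex.natCast_re, Complex.natCast_im, mul_zero, sub_zero]
      rw [h5]
      have : 0 ≤ ‖c 0‖ * (κ * J.card) := by positivity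
      linarith
    · rw [zero_add]
      refine (Complex.re_le_norm _).trans ?_
      rw [norm_mul]
      have h4 := hcon n h (le_sup (f := Int.natAbs) hn)
      gcongr
  have h4 : ∑ n ∈ c.support, ((if n = 0 then (c 0).re * J.card else 0) +
      ‖c n‖ * (κ * J.card)) ≤ (β - α + ε) * J.card + (∑ n ∈ c.support, ‖c n‖) * κ * J.card := by
    rw [sum_add_distrib, ← sum_mul, sum_ite_eq']
    have h5 : (if (0 : ℤ) ∈ c.support then (c 0).re * (J.card : ℝ) else 0) ≤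
        (β - α + ε) * J.card := by
      split_ifs with h
      · gcongr
      · have : 0 ≤ β - α + ε := by linarith
        positivity
    linarith
  have h5 := hcnt.trans (h1.trans ((le_of_eq h2).trans ((sum_le_sum h3).trans h4)))
  have h6 : (∑ n ∈ c.support, ‖c n‖) * κ * J.card < ε * J.card := by
    have : (∑ n ∈ c.support, ‖c n‖) * κ < ε := by
      rw [mul_comm]
      exact hκ
    gcongr
  linarith

theorem cnt_mono {J : Finset ℕ} {x : ℕ → ℝ} {α β α' β' : ℝ} (h1 : α' ≤ α) (h2 : β ≤ β') :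
    cnt J x α β ≤ cnt J x α' β' := by
  unfold cnt
  refine card_le_card fun j hj => ?_
  rw [mem_filter] at hj ⊢
  exact ⟨hj.1, h1.trans hj.2.1, hj.2.2.trans_le h2⟩

/-- from a discrepancy to an excess -/
theorem excess {J : Finset ℕ} {x : ℕ → ℝ} {ε : ℝ} (h : Uneven ε J x) :
    ∃ α β : ℝ, 0 ≤ α ∧ α ≤ β ∧ β ≤ 1 ∧ (β - α + ε / 2) * J.card ≤ cnt J x α β := by
  classical
  obtain ⟨α, β, h0, h1, h2, h3⟩ := h
  rcases le_total 0 ((cnt J x α β : ℝ) - (β - α) * J.card) with hs | hs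
  · rw [abs_of_nonneg hs] at h3
    rcases le_total 0 ε with he | he
    · refine ⟨α, β, h0, h1, h2, ?_⟩
      have : 0 ≤ ε * J.card := by positivity
      linarith
    · refine ⟨α, β, h0, h1, h2, ?_⟩
      have : ε / 2 * J.card ≤ 0 := mul_nonpos_of_nonpos_of_nonneg (by linarith) (by positivity)
      linarith
  · rw [abs_of_nonpos hs] at h3
    have h4 : cnt J x 0 α + cnt J x α β + cnt J x β 1 = J.card := by
      unfold cnt
      have e1 : J.filter (fun i => 0 ≤ Int.fract (x i) ∧ Int.fract (x i) < α) =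
          J.filter (fun i => Int.fract (x i) < α) := by
        ext i
        simp [Int.fract_nonneg]
      have e2 : J.filter (fun i => β ≤ Int.fract (x i) ∧ Int.fract (x i) < 1) =
          J.filter (fun i => β ≤ Int.fract (x i)) := by
        ext i
        simp [Int.fract_lt_one]
      rw [e1, e2]
      have e3 : (J.filter (fun i => Int.fract (x i) < α)).card +
          (J.filter (fun i => α ≤ Int.fract (x i) ∧ Int.fract (x i) < β)).card =
          (J.filter (fun i => Int.fract (x i) < β)).card := by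
        rw [← card_union_of_disjoint]
        · congr 1
          ext i
          simp only [mem_union, mem_filter]
          constructor
          · rintro (⟨a, b⟩ | ⟨a, b, c⟩)
            · exact ⟨a, b.trans_le h1⟩
            · exact ⟨a, c⟩
          · rintro ⟨a, b⟩
            rcases lt_or_ge (Int.fract (x i)) α with hh | hh
            · exact Or.inl ⟨a, hh⟩
            · exact Or.inr ⟨a, hh, b⟩
        · rw [disjoint_filter]
          intro i _ hh hh'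
          exact absurd hh (not_lt.2 hh'.1)
      rw [e3]
      have e4 := card_filter_add_card_filter_not (s := J) (fun i => Int.fract (x i) < β)
      simp only [not_lt] at e4
      exact e4
    have h5 : (cnt J x 0 α : ℝ) + cnt J x α β + cnt J x β 1 = J.card := by exact_mod_cast h4
    by_contra hcon
    push Not at hcon
    have c1 := hcon 0 α le_rfl h0 (h1.trans h2)
    have c2 := hcon β 1 (h0.trans h1) h2 le_rfl
    linarith

/-- **Weyl's criterion**, quantitative form -/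
theorem weyl {ε : ℝ} (hε : 0 < ε) :
    ∃ (H : ℕ) (κ : ℝ), 0 < κ ∧ κ ≤ 1 ∧ ∀ (J : Finset ℕ) (x : ℕ → ℝ), 0 < J.card →
      Uneven ε J x →
      ∃ n : ℤ, n ≠ 0 ∧ n.natAbs ≤ H ∧ κ * J.card ≤ ‖∑ j ∈ J, ee (n * x j)‖ := by
  classical
  obtain ⟨q, hq⟩ := exists_nat_gt (8 / ε)
  have hq0 : (0 : ℝ) < q := lt_of_le_of_lt (by positivity) hq
  have hq1 : 2 / (q : ℝ) ≤ ε / 4 := by
    rw [div_le_iff₀ hq0]
    rw [div_lt_iff₀ hε] at hq
    linarith
  have hex : ∀ p : ℕ × ℕ, ∃ (H : ℕ) (L : ℝ), 0 ≤ L ∧ (p.1 ≤ p.2 → ∀ (J : Finset ℕ) (x : ℕ → ℝ),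
      0 < J.card → (((p.2 : ℝ) / q) - ((p.1 : ℝ) / q) + 2 * (ε / 8)) * J.card ≤
        cnt J x ((p.1 : ℝ) / q) ((p.2 : ℝ) / q) → ∀ κ : ℝ, 0 < κ → κ * L < ε / 8 →
      ∃ n : ℤ, n ≠ 0 ∧ n.natAbs ≤ H ∧ κ * J.card ≤ ‖∑ j ∈ J, ee (n * x j)‖) := by
    intro p
    by_cases hp : p.1 ≤ p.2
    · have hle : (p.1 : ℝ) / q ≤ (p.2 : ℝ) / q := by
        have : (p.1 : ℝ) ≤ p.2 := by exact_mod_cast hp
        gcongr
      obtain ⟨H, L, hL, h⟩ := weyl_one hle (show 0 < ε / 8 by positivity)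
      exact ⟨H, L, hL, fun _ => h⟩
    · exact ⟨0, 0, le_rfl, fun h => absurd h hp⟩
  choose H L hL hW using hex
  set I : Finset (ℕ × ℕ) := (range (q + 1)) ×ˢ (range (q + 1)) with hI
  set L₀ : ℝ := ∑ p ∈ I, L p with hL₀
  have hL₀' : 0 ≤ L₀ := sum_nonneg fun p _ => hL p
  refine ⟨∑ p ∈ I, H p, min 1 (ε / 16 / (L₀ + 1)), by positivity, min_le_left _ _, ?_⟩
  intro J x hJ hU
  obtain ⟨α, β, h0, h1, h2, h3⟩ := excess hU
  have hJr : (0 : ℝ) < J.card := by exact_mod_cast hJ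
  have ha : ((⌊α * q⌋₊ : ℕ) : ℝ) / q ≤ α := by
    rw [div_le_iff₀ hq0]
    exact Nat.floor_le (by positivity)
  have ha' : α - 1 / q ≤ ((⌊α * q⌋₊ : ℕ) : ℝ) / q := by
    rw [sub_le_iff_le_add, ← add_div, le_div_iff₀ hq0]
    exact (Nat.lt_floor_add_one _).le
  have hb : β ≤ ((⌈β * q⌉₊ : ℕ) : ℝ) / q := by
    rw [le_div_iff₀ hq0]
    exact Nat.le_ceil _
  have hb' : ((⌈β * q⌉₊ : ℕ) : ℝ) / q ≤ β + 1 / q := by
    rw [div_le_iff₀ hq0, add_mul, one_div, inv_mul_cancel₀ hq0.ne']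
    exact (Nat.ceil_lt_add_one (by have := h0.trans h1; positivity)).le
  have hp1 : ⌊α * q⌋₊ ≤ ⌈β * q⌉₊ := by
    refine (Nat.floor_le_ceil _).trans (Nat.ceil_le_ceil ?_)
    gcongr
  have hp2 : ⌈β * q⌉₊ ≤ q := by
    rw [Nat.ceil_le]
    calc β * q ≤ 1 * q := by gcongr
      _ = q := one_mul _
  have hpI : (⌊α * q⌋₊, ⌈β * q⌉₊) ∈ I := by
    rw [hI, mem_product, mem_range, mem_range]
    exact ⟨Nat.lt_succ_of_le (hp1.trans hp2), Nat.lt_succ_of_le hp2⟩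
  have hsum : 1 / (q : ℝ) + 1 / q = 2 / q := by ring
  have hc : (((⌈β * q⌉₊ : ℕ) : ℝ) / q - ((⌊α * q⌋₊ : ℕ) : ℝ) / q + 2 * (ε / 8)) * J.card ≤
      cnt J x (((⌊α * q⌋₊ : ℕ) : ℝ) / q) (((⌈β * q⌉₊ : ℕ) : ℝ) / q) := by
    have h4 : (cnt J x α β : ℝ) ≤
        cnt J x (((⌊α * q⌋₊ : ℕ) : ℝ) / q) (((⌈β * q⌉₊ : ℕ) : ℝ) / q) := by
      exact_mod_cast cnt_mono ha hb
    refine le_trans ?_ (h3.trans h4)
    refine mul_le_mul_of_nonneg_right ?_ hJr.le
    linarith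
  have hL₁ : L (⌊α * q⌋₊, ⌈β * q⌉₊) ≤ L₀ := single_le_sum (f := L) (fun p _ => hL p) hpI
  obtain ⟨n, hn1, hn2, hn3⟩ := hW (⌊α * q⌋₊, ⌈β * q⌉₊) hp1 J x hJ hc
    (min 1 (ε / 16 / (L₀ + 1))) (by positivity) (by
      have h5 : min 1 (ε / 16 / (L₀ + 1)) ≤ ε / 16 / (L₀ + 1) := min_le_right _ _
      calc min 1 (ε / 16 / (L₀ + 1)) * L (⌊α * q⌋₊, ⌈β * q⌉₊) ≤ ε / 16 / (L₀ + 1) * (L₀ + 1) := by
            have h6 := hL (⌊α * q⌋₊, ⌈β * q⌉₊)
            have h7 : L (⌊α * q⌋₊, ⌈β * q⌉₊) ≤ L₀ + 1 := by linarith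
            gcongr
        _ = ε / 16 := by
            field_simp
        _ < ε / 8 := by linarith)
  exact ⟨n, hn1, hn2.trans (single_le_sum (f := H) (fun p _ => Nat.zero_le _) hpI), hn3⟩

end Pool.Agent.E8helper93.LS
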