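import Pool.Agent.E8helper93.LS.Thr

/-!
Assembly.
-/

set_option autoImplicit false

namespace Pool.Agent.E8helper93.LS

open Finset Filter Topology
open Pool.Agent.H78R2.ET (cnt Uneven)

theorem sig_le (m : ℕ → ℕ) (hm : Moduli m) (C : ℕ → Finset ℕ) (k : ℕ) : sig m C k ≤ k := by
  unfold sig
  have h : ∀ j ∈ range k, √(((dbl m C j).card : ℝ) / m j) ≤ 1 := by
    intro j _
    rw [Real.sqrt_le_one]
    have h1 : (dbl m C j).card ≤ m j := by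
      have h2 : dbl m C j ⊆ range (m j) := by
        intro x hx
        unfold dbl at hx
        rw [mem_image] at hx
        obtain ⟨y, -, rfl⟩ := hx
        exact mem_range.2 (Nat.mod_lt _ (hm.1 j))
      have h3 := card_le_card h2
      rwa [card_range] at h3
    have h2 : (0 : ℝ) < m j := by exact_mod_cast hm.1 j
    rw [div_le_one h2]
    exact_mod_cast h1
  refine (sum_le_card_nsmul _ _ _ h).trans ?_
  rw [card_range, nsmul_eq_mul, mul_one]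

theorem finset_of {A : Set ℕ} {N : ℕ} (P : ℕ → Prop) :
    ∃ F : Finset ℕ, (({a | a ∈ A ∧ P a} ∩ Set.Icc 1 N).ncard : ℝ) = F.card ∧
      (∀ a ∈ F, a ∈ A ∧ 1 ≤ a ∧ a ≤ N) ∧ ∀ a ∈ F, P a := by
  have hfin : ({a | a ∈ A ∧ P a} ∩ Set.Icc 1 N).Finite := (Set.finite_Icc 1 N).inter_of_right _
  refine ⟨hfin.toFinset, by rw [Set.ncard_eq_toFinset_card _ hfin], fun a ha => ?_, fun a ha => ?_⟩
  · rw [Set.Finite.mem_toFinset] at ha
    exact ⟨ha.1.1, ha.2⟩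
  · rw [Set.Finite.mem_toFinset] at ha
    exact ha.1.2

theorem rich_anti {m : ℕ → ℕ} {C : ℕ → Finset ℕ} {u : ℕ → ℕ} {δ δ' : ℝ} (h : δ' ≤ δ) {n : ℕ}
    (hr : Rich m C u δ n) : Rich m C u δ' n := by
  obtain ⟨y, h1, h2, h3⟩ := hr
  refine ⟨y, h1, h2, le_trans ?_ h3⟩
  have := sig_nonneg m C y
  gcongr

theorem irr_anti {m : ℕ → ℕ} {r : ℕ → ℤ} {u : ℕ → ℕ} {δ δ' : ℝ} (h : δ' ≤ δ) {n : ℕ}
    (hr : Irr m r u δ n) : Irr m r u δ' n := by
  obtain ⟨k, h1, h2, α, β, h3, h4, h5, h6⟩ := hr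
  refine ⟨k, h1, h2, α, β, h3, h4, h5, le_trans ?_ h6⟩
  gcongr

/-- the decay for exceptional integers -/
noncomputable def dec (K κ : ℝ) (m : ℕ → ℕ) (C : ℕ → Finset ℕ) (u : ℕ → ℕ) (M : ℕ) : ℝ :=
  K * Real.exp (-(κ * sig m C (u M)))

/-- the bounds, with common constants -/
theorem bounds {δ : ℝ} (hδ : 0 < δ) : ∃ K κ : ℝ, 0 < K ∧ 0 < κ ∧
    (∀ (m : ℕ → ℕ) (C : ℕ → Finset ℕ), Moduli m → ∀ (A : Set ℕ) (R N u : ℕ),
      (∀ n, rep A n ≤ R) →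
      (({a | a ∈ A ∧ ∃ k, u ≤ k ∧ Adm m C k N ∧ (1 + δ) * sig m C k ≤ hits m C k a} ∩
        Set.Icc 1 N).ncard : ℝ) ≤ K * √(R * N) * Real.exp (-(κ * sig m C u))) ∧
    (∀ (m : ℕ → ℕ) (r : ℕ → ℤ), Moduli m → Cop m r → ∀ (A : Set ℕ) (R N u : ℕ),
      (∀ n, rep A n ≤ R) →
      (({a | a ∈ A ∧ ∃ k, u ≤ k ∧ ∏ j ∈ range k, m j ≤ N ∧
        Uneven δ (range k) (fun j => (r j : ℝ) / m j * a)} ∩
        Set.Icc 1 N).ncard : ℝ) ≤ K * √(R * N) * Real.exp (-(κ * u))) ∧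
    ∀ (m : ℕ → ℕ) (C : ℕ → Finset ℕ) (r : ℕ → ℤ), Moduli m → Cop m r → ∀ u : ℕ → ℕ,
      Monotone u → RareBy {n | Rich m C u δ n ∨ Irr m r u δ n} (dec K κ m C u) := by
  classical
  obtain ⟨K₂, κ₂, hK₂, hκ₂, h₂⟩ := irr_max hδ
  have hρ := rho_gt hδ
  set ρ := √(1 + δ) with hρdef
  have hK₁ := cst_pos hρ
  have hκ₁ := rate_pos hρ
  have h₁ : ∀ (m : ℕ → ℕ) (C : ℕ → Finset ℕ), Moduli m → ∀ (A : Set ℕ) (R N u : ℕ),
      (∀ n, rep A n ≤ R) →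
      (({a | a ∈ A ∧ ∃ k, u ≤ k ∧ Adm m C k N ∧ (1 + δ) * sig m C k ≤ hits m C k a} ∩
        Set.Icc 1 N).ncard : ℝ) ≤ cst ρ * √(3 * R * N) * Real.exp (-(rate ρ * sig m C u)) := by
    intro m C hm A R N u hR
    obtain ⟨F, hF1, hF2, hF3⟩ := finset_of (A := A) (N := N)
      (fun a => ∃ k, u ≤ k ∧ Adm m C k N ∧ (1 + δ) * sig m C k ≤ hits m C k a)
    rw [hF1]
    refine maximal hm hR hF2 hρ fun a ha => ?_
    obtain ⟨k, h1, h2, h3⟩ := hF3 a ha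
    refine ⟨k, h1, h2, ?_⟩
    rwa [hρdef, Real.sq_sqrt (by linarith)]
  have h₂' : ∀ (m : ℕ → ℕ) (r : ℕ → ℤ), Moduli m → Cop m r → ∀ (A : Set ℕ) (R N u : ℕ),
      (∀ n, rep A n ≤ R) →
      (({a | a ∈ A ∧ ∃ k, u ≤ k ∧ ∏ j ∈ range k, m j ≤ N ∧
        Uneven δ (range k) (fun j => (r j : ℝ) / m j * a)} ∩
        Set.Icc 1 N).ncard : ℝ) ≤ K₂ * √(3 * R * N) * Real.exp (-(κ₂ * u)) := by
    intro m r hm hr A R N u hR
    obtain ⟨F, hF1, hF2, hF3⟩ := finset_of (A := A) (N := N)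
      (fun a => ∃ k, u ≤ k ∧ ∏ j ∈ range k, m j ≤ N ∧
        Uneven δ (range k) (fun j => (r j : ℝ) / m j * a))
    rw [hF1]
    exact h₂ m r hm hr F N R u (fun a ha => (hF2 a ha).2.2)
      (fun s => (rep_fin (fun a ha => (hF2 a ha).1) s).trans (hR s)) hF3
  have hs3 : ∀ R N : ℕ, √(3 * R * N : ℝ) = √3 * √(R * N) := by
    intro R N
    rw [mul_assoc, Real.sqrt_mul (by norm_num : (0 : ℝ) ≤ 3)]
  have hs31 : (1 : ℝ) ≤ √3 := by
    rw [Real.one_le_sqrt]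
    norm_num
  refine ⟨(cst ρ + K₂) * √3, min (rate ρ) κ₂, by positivity, lt_min hκ₁ hκ₂, ?_, ?_, ?_⟩
  · intro m C hm A R N u hR
    refine (h₁ m C hm A R N u hR).trans ?_
    rw [hs3]
    have h3 := sig_nonneg m C u
    have h4 : min (rate ρ) κ₂ ≤ rate ρ := min_le_left _ _
    have h5 : Real.exp (-(rate ρ * sig m C u)) ≤ Real.exp (-(min (rate ρ) κ₂ * sig m C u)) := by
      apply Real.exp_le_exp.2
      have := mul_le_mul_of_nonneg_right h4 h3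
      linarith
    calc cst ρ * (√3 * √(R * N)) * Real.exp (-(rate ρ * sig m C u)) =
          cst ρ * (√3 * √(R * N) * Real.exp (-(rate ρ * sig m C u))) := by ring
      _ ≤ (cst ρ + K₂) * (√3 * √(R * N) * Real.exp (-(min (rate ρ) κ₂ * sig m C u))) := by
          gcongr
          linarith
      _ = _ := by ring
  · intro m r hm hr A R N u hR
    refine (h₂' m r hm hr A R N u hR).trans ?_
    rw [hs3]
    have h4 : min (rate ρ) κ₂ ≤ κ₂ := min_le_right _ _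
    have h5 : Real.exp (-(κ₂ * (u : ℝ))) ≤ Real.exp (-(min (rate ρ) κ₂ * (u : ℝ))) := by
      apply Real.exp_le_exp.2
      have := mul_le_mul_of_nonneg_right h4 (Nat.cast_nonneg (α := ℝ) u)
      linarith
    calc K₂ * (√3 * √(R * N)) * Real.exp (-(κ₂ * u)) =
          K₂ * (√3 * √(R * N) * Real.exp (-(κ₂ * u))) := by ring
      _ ≤ (cst ρ + K₂) * (√3 * √(R * N) * Real.exp (-(min (rate ρ) κ₂ * u))) := by
          gcongr
          linarith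
      _ = _ := by ring
  · intro m C r hm hr u hu
    refine ⟨fun M => ?_, ?_⟩
    · unfold dec
      positivity
    intro A R M N hR
    have h1 := h₁ m C hm A R N (u M) hR
    have h2 := h₂' m r hm hr A R N (u M) hR
    have hsub : ({a | a ∈ A ∧ a ∈ {n | Rich m C u δ n ∨ Irr m r u δ n} ∧ M ≤ a} ∩
        Set.Icc 1 N) ⊆
        ({a | a ∈ A ∧ ∃ k, u M ≤ k ∧ Adm m C k N ∧ (1 + δ) * sig m C k ≤ hits m C k a} ∩
        Set.Icc 1 N) ∪ ({a | a ∈ A ∧ ∃ k, u M ≤ k ∧ ∏ j ∈ range k, m j ≤ N ∧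
        Uneven δ (range k) (fun j => (r j : ℝ) / m j * a)} ∩
        Set.Icc 1 N) := by
      rintro a ⟨⟨ha1, ha2, ha3⟩, ha4, ha5⟩
      rcases ha2 with ⟨k, k1, k2, k3⟩ | ⟨k, k1, k2, k3⟩
      · exact Or.inl ⟨⟨ha1, k, (hu ha3).trans k1, adm_mono k2 ha5, k3⟩, ha4, ha5⟩
      · exact Or.inr ⟨⟨ha1, k, (hu ha3).trans k1, k2.trans ha5, k3⟩, ha4, ha5⟩
    have h3 := (Set.ncard_le_ncard hsub (((Set.finite_Icc 1 N).inter_of_right _).union
      ((Set.finite_Icc 1 N).inter_of_right _))).trans (Set.ncard_union_le _ _)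
    have h4 : (({a | a ∈ A ∧ a ∈ {n | Rich m C u δ n ∨ Irr m r u δ n} ∧ M ≤ a} ∩
        Set.Icc 1 N).ncard : ℝ) ≤
        (({a | a ∈ A ∧ ∃ k, u M ≤ k ∧ Adm m C k N ∧ (1 + δ) * sig m C k ≤ hits m C k a} ∩
        Set.Icc 1 N).ncard : ℝ) + (({a | a ∈ A ∧ ∃ k, u M ≤ k ∧ ∏ j ∈ range k, m j ≤ N ∧
        Uneven δ (range k) (fun j => (r j : ℝ) / m j * a)} ∩
        Set.Icc 1 N).ncard : ℝ) := by exact_mod_cast h3
    refine h4.trans ((add_le_add h1 h2).trans ?_)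
    have hs0 := sig_nonneg m C (u M)
    have hs1 := sig_le m hm C (u M)
    have e1 : Real.exp (-(rate ρ * sig m C (u M))) ≤
        Real.exp (-(min (rate ρ) κ₂ * sig m C (u M))) := by
      apply Real.exp_le_exp.2
      have := mul_le_mul_of_nonneg_right (min_le_left (rate ρ) κ₂) hs0
      linarith
    have e2 : Real.exp (-(κ₂ * (u M : ℝ))) ≤
        Real.exp (-(min (rate ρ) κ₂ * sig m C (u M))) := by
      apply Real.exp_le_exp.2
      have h5 := mul_le_mul_of_nonneg_right (min_le_right (rate ρ) κ₂) hs0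
      have h6 : κ₂ * sig m C (u M) ≤ κ₂ * (u M : ℝ) := by gcongr
      linarith
    unfold dec
    calc cst ρ * √(3 * R * N) * Real.exp (-(rate ρ * sig m C (u M))) +
          K₂ * √(3 * R * N) * Real.exp (-(κ₂ * (u M : ℝ))) ≤
          cst ρ * √(3 * R * N) * Real.exp (-(min (rate ρ) κ₂ * sig m C (u M))) +
          K₂ * √(3 * R * N) * Real.exp (-(min (rate ρ) κ₂ * sig m C (u M))) := by gcongr
      _ = 1 * (√(3 * R * N) * ((cst ρ + K₂) *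
          Real.exp (-(min (rate ρ) κ₂ * sig m C (u M))))) := by ring
      _ ≤ √3 * (√(3 * R * N) * ((cst ρ + K₂) *
          Real.exp (-(min (rate ρ) κ₂ * sig m C (u M))))) := by gcongr
      _ = _ := by ring

/-- For every system only finitely many elements of `A` are rich or irregular. -/
def Typ (m : ℕ → ℕ → ℕ) (C : ℕ → ℕ → Finset ℕ) (r : ℕ → ℕ → ℤ) (u : ℕ → ℕ) (A : Set ℕ) : Prop :=
  ∀ i, ∀ δ : ℝ, 0 < δ →
    {a | a ∈ A ∧ (Rich (m i) (C i) u δ a ∨ Irr (m i) (r i) u δ a)}.Finite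

theorem reduce_typ {m : ℕ → ℕ → ℕ} {C : ℕ → ℕ → Finset ℕ} {r : ℕ → ℕ → ℤ}
    (hm : ∀ i, Moduli (m i)) (hr : ∀ i, Cop (m i) (r i))
    (hC : ∀ i, Tendsto (sig (m i) (C i)) atTop atTop)
    {u : ℕ → ℕ} (hu : Monotone u) (hu' : Tendsto u atTop atTop) :
    (∃ g : ℕ → ℝ, Tendsto g atTop atTop ∧ ForcesIn (fun _ => True) g) ↔
      ∃ g : ℕ → ℝ, Tendsto g atTop atTop ∧ ForcesIn (Typ m C r u) g := by
  have hδ : ∀ k : ℕ, 0 < 1 / ((Nat.unpair k).2 + 1 : ℝ) := fun k => by positivity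
  have hb := fun k => bounds (hδ k)
  choose K κ hK hκ _ _ hrare using hb
  let S : ℕ → Set ℕ := fun k => {n | Rich (m (Nat.unpair k).1) (C (Nat.unpair k).1) u
    (1 / ((Nat.unpair k).2 + 1 : ℝ)) n ∨ Irr (m (Nat.unpair k).1) (r (Nat.unpair k).1) u
    (1 / ((Nat.unpair k).2 + 1 : ℝ)) n}
  let d : ℕ → ℕ → ℝ := fun k => dec (K k) (κ k) (m (Nat.unpair k).1) (C (Nat.unpair k).1) u
  have hS : ∀ k, RareBy (S k) (d k) := fun k => hrare k _ _ _ (hm _) (hr _) u hu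
  have hanti : ∀ k, Antitone (d k) := by
    intro k M M' h
    change K k * Real.exp _ ≤ K k * Real.exp _
    have h1 := (hK k).le
    have h2 := (hκ k).le
    have h3 := sig_mono (m (Nat.unpair k).1) (C (Nat.unpair k).1) (hu h)
    gcongr
  have he : ∀ k, Tendsto (d k) atTop (𝓝 0) := by
    intro k
    change Tendsto (fun M => K k * Real.exp (-(κ k * sig (m (Nat.unpair k).1)
      (C (Nat.unpair k).1) (u M)))) atTop (𝓝 0)
    rw [← mul_zero (K k)]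
    refine Tendsto.const_mul _ ?_
    refine Real.tendsto_exp_atBot.comp ?_
    refine tendsto_neg_atTop_atBot.comp ?_
    exact Tendsto.const_mul_atTop (hκ k) ((hC _).comp hu')
  constructor
  · rintro ⟨g, hg, h⟩
    exact ⟨g, hg, fun A _ hA => h A trivial hA⟩
  · rintro ⟨g, hg, h⟩
    refine (reduce_seq hS hanti he).2 ⟨g, hg, fun A hA => h A ?_⟩
    intro i η hη
    obtain ⟨l, hl⟩ := exists_nat_one_div_lt hη
    refine (hA (Nat.pair i l)).subset ?_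
    rintro a ⟨ha1, ha2⟩
    refine ⟨ha1, ?_⟩
    change Rich (m (Nat.unpair (Nat.pair i l)).1) (C (Nat.unpair (Nat.pair i l)).1) u
      (1 / ((Nat.unpair (Nat.pair i l)).2 + 1 : ℝ)) a ∨
      Irr (m (Nat.unpair (Nat.pair i l)).1) (r (Nat.unpair (Nat.pair i l)).1) u
      (1 / ((Nat.unpair (Nat.pair i l)).2 + 1 : ℝ)) a
    rw [Nat.unpair_pair]
    rcases ha2 with h1 | h1
    · exact Or.inl (rich_anti hl.le h1)
    · exact Or.inr (irr_anti hl.le h1)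

/-- thresholds and the reduction for a fixed `g` -/
theorem thresholds {δ : ℝ} (hδ : 0 < δ) : ∃ κ : ℝ, 0 < κ ∧
    (∃ K : ℝ, 0 < K ∧
      (∀ (m : ℕ → ℕ) (C : ℕ → Finset ℕ), Moduli m → ∀ (A : Set ℕ) (R N u : ℕ),
        (∀ n, rep A n ≤ R) →
        (({a | a ∈ A ∧ ∃ k, u ≤ k ∧ Adm m C k N ∧ (1 + δ) * sig m C k ≤ hits m C k a} ∩
          Set.Icc 1 N).ncard : ℝ) ≤ K * √(R * N) * Real.exp (-(κ * sig m C u))) ∧
      ∀ (m : ℕ → ℕ) (r : ℕ → ℤ), Moduli m → Cop m r → ∀ (A : Set ℕ) (R N u : ℕ),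
        (∀ n, rep A n ≤ R) →
        (({a | a ∈ A ∧ ∃ k, u ≤ k ∧ ∏ j ∈ range k, m j ≤ N ∧
          Uneven δ (range k) (fun j => (r j : ℝ) / m j * a)} ∩
          Set.Icc 1 N).ncard : ℝ) ≤ K * √(R * N) * Real.exp (-(κ * u))) ∧
    ∀ (m : ℕ → ℕ) (C : ℕ → Finset ℕ) (r : ℕ → ℤ), Moduli m → Cop m r → ∀ u : ℕ → ℕ,
      Monotone u → ∀ g : ℕ → ℝ, (∀ᶠ N : ℕ in atTop, 0 < g N ∧ g N ≤ (N : ℝ) ^ (1 / 5 : ℝ)) →
      Tendsto (fun N : ℕ => g N * Real.exp (-(κ * sig m C (u (Nat.sqrt N))))) atTop (𝓝 0) →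
      (∀ A : Set ℕ, (∀ a ∈ A, Rich m C u δ a ∨ Irr m r u δ a) →
        (∃ c : ℝ, ∃ᶠ N : ℕ in atTop, √(N : ℝ) / g N ≤ c * ((A ∩ Set.Icc 1 N).ncard : ℝ)) →
        ∀ K : ℕ, ∃ m, K ≤ rep A m) ∧
      (ForcesIn (fun _ => True) g ↔
        ForcesIn (fun A => ∀ a ∈ A, ¬ (Rich m C u δ a ∨ Irr m r u δ a)) g) := by
  obtain ⟨K, κ, hK, hκ, h1, h2, h3⟩ := bounds hδ
  refine ⟨κ, hκ, ⟨K, hK, h1, h2⟩, ?_⟩
  intro m C r hm hr u hu g hg hg2
  have h4 := h3 m C r hm hr u hu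
  have h5 : Tendsto (fun N : ℕ => g N * dec K κ m C u (Nat.sqrt N)) atTop (𝓝 0) := by
    have h6 := hg2.const_mul K
    rw [mul_zero] at h6
    refine h6.congr fun N => ?_
    unfold dec
    ring
  exact ⟨fun A hA hd => threshold_rare h4 hg h5 hA hd, reduce_rare h4 hg h5⟩

end Pool.Agent.E8helper93.LS
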