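import Pool.Agent.E8helper93.LS.Disc

/-!
The elements `a` for which the points `r j a / m j` have a large discrepancy.
-/

set_option autoImplicit false

namespace Pool.Agent.E8helper93.LS

open Finset
open Pool.Agent.H78R2.ET (ee norm_ee cnt Uneven)

/-- the residues are coprime to the moduli -/
def Cop (m : ℕ → ℕ) (r : ℕ → ℤ) : Prop := ∀ j, 2 ≤ m j ∧ IsCoprime (r j) (m j : ℤ)

theorem few_bad {m : ℕ → ℕ} (hm : Moduli m) {r : ℕ → ℤ} (hr : Cop m r) {n : ℤ} (hn : n ≠ 0)
    (k : ℕ) : ((range k).filter (fun j => (m j : ℤ) ∣ n * r j)).card ≤ n.natAbs := by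
  set B := (range k).filter (fun j => (m j : ℤ) ∣ n * r j) with hB
  have h1 : ∀ j ∈ B, m j ∣ n.natAbs := by
    intro j hj
    rw [hB, mem_filter] at hj
    have h2 : (m j : ℤ) ∣ n := ((hr j).2.symm).dvd_of_dvd_mul_right hj.2
    exact Int.natCast_dvd.1 h2
  have h2 : ∏ j ∈ B, m j ∣ n.natAbs :=
    Finset.prod_dvd_of_isRelPrime
      (fun i _ j _ hij => Nat.coprime_iff_isRelPrime.1 (hm.2 i j hij)) h1
  have h3 : ∏ j ∈ B, m j ≤ n.natAbs := Nat.le_of_dvd (Int.natAbs_pos.2 hn) h2
  have h4 : 2 ^ B.card ≤ ∏ j ∈ B, m j := by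
    rw [← prod_const]
    exact prod_le_prod' fun j _ => (hr j).1
  exact (Nat.lt_two_pow_self.le).trans (h4.trans h3)

/-- the bound for a fixed number of moduli -/
theorem irr_fixed {ε : ℝ} (hε : 0 < ε) : ∃ K κ : ℝ, 0 < K ∧ 0 < κ ∧
    ∀ (m : ℕ → ℕ) (r : ℕ → ℤ), Moduli m → Cop m r → ∀ (F : Finset ℕ) (N R k : ℕ),
      ∏ j ∈ range k, m j ≤ N → (∀ a ∈ F, a ≤ N) →
      (∀ s, ((F ×ˢ F).filter (fun x => x.1 + x.2 = s)).card ≤ R) →
      (∀ a ∈ F, Uneven ε (range k) (fun j => (r j : ℝ) / m j * a)) →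
      (F.card : ℝ) ≤ K * √(3 * R * N) * Real.exp (-(κ * k)) := by
  classical
  obtain ⟨H, κ₀, hκ₀, hκ₁, hW⟩ := weyl hε
  obtain ⟨k₀, hk₀⟩ := exists_nat_gt (2 * H / κ₀)
  set κ : ℝ := (κ₀ / 2) ^ 4 / 512 with hκ
  have hκp : 0 < κ := by positivity
  refine ⟨4 * (2 * H + 1) + Real.exp (κ * k₀), κ, by positivity, hκp, ?_⟩
  intro m r hm hr F N R k hkN hF hrep hU
  have hX : 0 ≤ √(3 * R * N) * Real.exp (-(κ * k)) := by positivity
  rcases lt_or_ge k k₀ with hk | hk
  · have h1 := phase_exc hm (J := ∅) (r := r) (N := N) (by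
      rw [prod_empty]
      exact (prod_pos fun j _ => hm.1 j).trans_le hkN) (fun j hj => absurd hj (notMem_empty j))
      hF hrep one_pos le_rfl (ω := 1) norm_one (fun a _ => by simp)
    rw [card_empty, Nat.cast_zero, mul_zero, neg_zero, Real.exp_zero, mul_one] at h1
    have h2 : 1 ≤ Real.exp (κ * k₀) * Real.exp (-(κ * k)) := by
      rw [← Real.exp_add]
      apply Real.one_le_exp
      have : (k : ℝ) ≤ k₀ := by exact_mod_cast hk.le
      nlinarith
    calc (F.card : ℝ) ≤ √(3 * R * N) * 1 := by rw [mul_one]; exact h1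
      _ ≤ √(3 * R * N) * (Real.exp (κ * k₀) * Real.exp (-(κ * k))) := by gcongr
      _ = Real.exp (κ * k₀) * (√(3 * R * N) * Real.exp (-(κ * k))) := by ring
      _ ≤ (4 * (2 * H + 1) + Real.exp (κ * k₀)) * (√(3 * R * N) * Real.exp (-(κ * k))) := by
          gcongr
          have : (0 : ℝ) ≤ 4 * (2 * H + 1) := by positivity
          linarith
      _ = _ := by ring
  · have hkr : (k₀ : ℝ) ≤ k := by exact_mod_cast hk
    have hHk : (H : ℝ) ≤ κ₀ * k / 2 := by
      have h1 : 2 * (H : ℝ) / κ₀ < k := hk₀.trans_le hkr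
      rw [div_lt_iff₀ hκ₀] at h1
      linarith
    have hHk' : (H : ℝ) ≤ (k : ℝ) / 2 := by
      have : κ₀ * k ≤ 1 * (k : ℝ) := by gcongr
      linarith
    let J : ℤ → Finset ℕ := fun n => (range k).filter (fun j => ¬ (m j : ℤ) ∣ n * r j)
    let G : ℤ → Finset ℕ := fun n => F.filter (fun a =>
      κ₀ / 2 * (J n).card ≤ ‖∑ j ∈ J n, ee (((n * r j : ℤ) : ℝ) / m j * a)‖)
    have hJc : ∀ n : ℤ, n ≠ 0 → n.natAbs ≤ H → (k : ℝ) / 2 ≤ (J n).card := by
      intro n hn hnH
      have h1 := card_filter_add_card_filter_not (s := range k) (fun j => (m j : ℤ) ∣ n * r j)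
      rw [card_range] at h1
      have h2 := (few_bad hm hr hn k).trans hnH
      have h3 : k ≤ (J n).card + H := by
        change _ ≤ ((range k).filter (fun j => ¬ (m j : ℤ) ∣ n * r j)).card + H
        omega
      have h4 : (k : ℝ) ≤ (J n).card + H := by exact_mod_cast h3
      linarith
    have hG : ∀ n : ℤ, n ≠ 0 → n.natAbs ≤ H → ((G n).card : ℝ) ≤
        4 * (√(3 * R * N) * Real.exp (-(κ * k))) := by
      intro n hn hnH
      have h1 := char_exc (F := G n) (N := N) (R := R) hm (J := J n) (r := fun j => n * r j)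
        (le_trans (prod_le_prod_of_subset_of_one_le' (filter_subset _ _)
          fun j _ _ => hm.1 j) hkN) (fun j hj => (mem_filter.1 hj).2)
        (fun a ha => hF a (mem_filter.1 ha).1) (fun s => (card_le_card (filter_subset_filter _
          (product_subset_product (filter_subset _ _) (filter_subset _ _)))).trans (hrep s))
        (show 0 < κ₀ / 2 by positivity) (by linarith) (fun a ha => (mem_filter.1 ha).2)
      refine h1.trans ?_
      have h2 := hJc n hn hnH
      have h3 : κ * (k : ℝ) ≤ (κ₀ / 2) ^ 4 / 256 * (J n).card := by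
        calc κ * (k : ℝ) = (κ₀ / 2) ^ 4 / 256 * ((k : ℝ) / 2) := by rw [hκ]; ring
          _ ≤ _ := by gcongr
      have h4 := Real.exp_le_exp.2 (neg_le_neg h3)
      gcongr
    have hcov : F ⊆ ((Finset.Icc (-(H : ℤ)) H).filter (fun n => n ≠ 0)).biUnion G := by
      intro a ha
      have hk0 : 0 < (range k).card := by
        rw [card_range]
        have h1 : (0 : ℝ) < k₀ := lt_of_le_of_lt (by positivity) hk₀
        have h2 : (0 : ℝ) < k := h1.trans_le hkr
        exact_mod_cast h2
      obtain ⟨n, hn1, hn2, hn3⟩ := hW (range k) _ hk0 (hU a ha)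
      rw [mem_biUnion]
      refine ⟨n, ?_, ?_⟩
      · rw [mem_filter, Finset.mem_Icc]
        refine ⟨⟨?_, ?_⟩, hn1⟩ <;> omega
      · change a ∈ F.filter _
        rw [mem_filter]
        refine ⟨ha, ?_⟩
        have h1 : ∑ j ∈ range k, ee (n * ((r j : ℝ) / m j * a)) =
            ∑ j ∈ (range k).filter (fun j => (m j : ℤ) ∣ n * r j),
              ee (((n * r j : ℤ) : ℝ) / m j * a) +
            ∑ j ∈ J n, ee (((n * r j : ℤ) : ℝ) / m j * a) := by
          rw [sum_filter_add_sum_filter_not]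
          refine sum_congr rfl fun j _ => ?_
          congr 1
          push_cast
          ring
        rw [h1, card_range] at hn3
        have h2 : ‖∑ j ∈ (range k).filter (fun j => (m j : ℤ) ∣ n * r j),
              ee (((n * r j : ℤ) : ℝ) / m j * a)‖ ≤ H := by
          refine (norm_sum_le _ _).trans ?_
          simp only [norm_ee, sum_const, nsmul_eq_mul, mul_one]
          exact_mod_cast (few_bad hm hr hn1 k).trans hn2
        have h3 := hn3.trans (norm_add_le _ _)
        have h4 : ((J n).card : ℝ) ≤ k := by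
          have : (J n).card ≤ (range k).card := card_le_card (filter_subset _ _)
          rw [card_range] at this
          exact_mod_cast this
        have h5 : κ₀ / 2 * (J n).card ≤ κ₀ / 2 * k := by gcongr
        linarith
    have h1 : (F.card : ℝ) ≤ (2 * H + 1) * (4 * (√(3 * R * N) * Real.exp (-(κ * k)))) := by
      have h2 := (card_le_card hcov).trans card_biUnion_le
      have h3 : (F.card : ℝ) ≤ ∑ n ∈ (Finset.Icc (-(H : ℤ)) H).filter (fun n => n ≠ 0),
          ((G n).card : ℝ) := by exact_mod_cast h2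
      refine h3.trans ?_
      have h4 : ∀ n ∈ (Finset.Icc (-(H : ℤ)) H).filter (fun n => n ≠ 0), ((G n).card : ℝ) ≤
          4 * (√(3 * R * N) * Real.exp (-(κ * k))) := by
        intro n hn
        rw [mem_filter, Finset.mem_Icc] at hn
        refine hG n hn.2 ?_
        omega
      refine (sum_le_card_nsmul _ _ _ h4).trans ?_
      rw [nsmul_eq_mul]
      have h5 : (((Finset.Icc (-(H : ℤ)) H).filter (fun n => n ≠ 0)).card : ℝ) ≤ 2 * H + 1 := by
        have h6 : ((Finset.Icc (-(H : ℤ)) H).filter (fun n => n ≠ 0)).card ≤ 2 * H + 1 := by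
          refine (card_filter_le _ _).trans ?_
          rw [Int.card_Icc]
          omega
        exact_mod_cast h6
      gcongr
    refine h1.trans ?_
    have h2 : 0 ≤ Real.exp (κ * k₀) := (Real.exp_pos _).le
    calc (2 * (H : ℝ) + 1) * (4 * (√(3 * R * N) * Real.exp (-(κ * k)))) =
        (4 * (2 * H + 1)) * (√(3 * R * N) * Real.exp (-(κ * k))) := by ring
      _ ≤ (4 * (2 * H + 1) + Real.exp (κ * k₀)) * (√(3 * R * N) * Real.exp (-(κ * k))) := by
          gcongr
          linarith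
      _ = _ := by ring

/-- **The bound for all numbers of moduli.** -/
theorem irr_max {ε : ℝ} (hε : 0 < ε) : ∃ K κ : ℝ, 0 < K ∧ 0 < κ ∧
    ∀ (m : ℕ → ℕ) (r : ℕ → ℤ), Moduli m → Cop m r → ∀ (F : Finset ℕ) (N R u : ℕ),
      (∀ a ∈ F, a ≤ N) →
      (∀ s, ((F ×ˢ F).filter (fun x => x.1 + x.2 = s)).card ≤ R) →
      (∀ a ∈ F, ∃ k, u ≤ k ∧ ∏ j ∈ range k, m j ≤ N ∧
        Uneven ε (range k) (fun j => (r j : ℝ) / m j * a)) →
      (F.card : ℝ) ≤ K * √(3 * R * N) * Real.exp (-(κ * u)) := by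
  classical
  obtain ⟨K, κ, hK, hκ, h⟩ := irr_fixed hε
  have hq1 : Real.exp (-κ) < 1 := by
    rw [Real.exp_lt_one_iff]
    linarith
  have hq0 : 0 < 1 - Real.exp (-κ) := by linarith
  refine ⟨K * (1 - Real.exp (-κ))⁻¹, κ, by positivity, hκ, ?_⟩
  intro m r hm hr F N R u hF hrep hex
  choose! k hk using hex
  have h1 : ∀ i ∈ F.image k, ((F.filter (fun a => k a = i)).card : ℝ) ≤
      K * √(3 * R * N) * Real.exp (-κ) ^ i := by
    intro i hi
    obtain ⟨a₁, ha₁, rfl⟩ := mem_image.1 hi
    have h2 := h m r hm hr (F.filter (fun a => k a = k a₁)) N R (k a₁) (hk a₁ ha₁).2.1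
      (fun a ha => hF a (mem_filter.1 ha).1) (fun s => (card_le_card (filter_subset_filter _
          (product_subset_product (filter_subset _ _) (filter_subset _ _)))).trans (hrep s))
      (fun a ha => by
        rw [mem_filter] at ha
        rw [← ha.2]
        exact (hk a ha.1).2.2)
    refine h2.trans (le_of_eq ?_)
    rw [← Real.exp_nat_mul]
    congr 2
    ring
  have h2 : (F.card : ℝ) = ∑ i ∈ F.image k, ((F.filter (fun a => k a = i)).card : ℝ) := by
    rw [card_eq_sum_card_image k F]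
    push_cast
    rfl
  rw [h2]
  refine (sum_le_sum h1).trans ?_
  rw [← mul_sum]
  have h3 : ∑ i ∈ F.image k, Real.exp (-κ) ^ i ≤ Real.exp (-κ) ^ u * (1 - Real.exp (-κ))⁻¹ := by
    have h4 : ∑ i ∈ F.image k, Real.exp (-κ) ^ i =
        Real.exp (-κ) ^ u * ∑ i ∈ (F.image k).image (fun i => i - u), Real.exp (-κ) ^ i := by
      have h5 := sum_image (s := F.image k) (g := fun i => i - u)
        (f := fun i => Real.exp (-κ) ^ i) (by
          intro i hi i' hi' hii
          obtain ⟨a, ha, rfl⟩ := mem_image.1 (mem_coe.1 hi)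
          obtain ⟨a', ha', rfl⟩ := mem_image.1 (mem_coe.1 hi')
          have e1 := (hk a ha).1
          have e2 := (hk a' ha').1
          simp only at hii
          omega)
      rw [h5, mul_sum]
      refine sum_congr rfl fun i hi => ?_
      obtain ⟨a, ha, rfl⟩ := mem_image.1 hi
      rw [← pow_add, Nat.add_sub_cancel' (hk a ha).1]
    rw [h4]
    have h5 : ∑ i ∈ (F.image k).image (fun i => i - u), Real.exp (-κ) ^ i ≤
        (1 - Real.exp (-κ))⁻¹ := by
      rw [← tsum_geometric_of_lt_one (Real.exp_pos _).le hq1]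
      exact Summable.sum_le_tsum _ (fun _ _ => by positivity)
        (summable_geometric_of_lt_one (Real.exp_pos _).le hq1)
    gcongr
  calc K * √(3 * R * N) * ∑ i ∈ F.image k, Real.exp (-κ) ^ i ≤
        K * √(3 * R * N) * (Real.exp (-κ) ^ u * (1 - Real.exp (-κ))⁻¹) := by gcongr
    _ = K * (1 - Real.exp (-κ))⁻¹ * √(3 * R * N) * Real.exp (-κ) ^ u := by ring
    _ = _ := by
        rw [← Real.exp_nat_mul]
        congr 2
        ring

end Pool.Agent.E8helper93.LS
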