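import Pool.Agent.E8helper93.LS.Moment

/-!
Chernoff type bounds and a maximal inequality.
-/

set_option autoImplicit false

namespace Pool.Agent.E8helper93.LS

open Finset

/-- The number of ordered pairs of elements of `A` with sum `n`. -/
noncomputable def rep (A : Set ℕ) (n : ℕ) : ℕ :=
  {p : ℕ × ℕ | p.1 ∈ A ∧ p.2 ∈ A ∧ p.1 + p.2 = n}.ncard

/-- the moduli are positive and pairwise coprime -/
def Moduli (m : ℕ → ℕ) : Prop := (∀ j, 0 < m j) ∧ ∀ i j, i ≠ j → Nat.Coprime (m i) (m j)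

/-- number of `j < k` with `a mod m j ∈ C j` -/
noncomputable def hits (m : ℕ → ℕ) (C : ℕ → Finset ℕ) (k a : ℕ) : ℕ :=
  ((range k).filter (fun j => a % m j ∈ C j)).card

/-- the sum of `√(|C j + C j| / m j)` over `j < k` -/
noncomputable def sig (m : ℕ → ℕ) (C : ℕ → Finset ℕ) (k : ℕ) : ℝ :=
  ∑ j ∈ range k, √((dbl m C j).card / m j)

/-- the product of the first `k` moduli is at most `N`, or all classes are zero classes -/
def Adm (m : ℕ → ℕ) (C : ℕ → Finset ℕ) (k N : ℕ) : Prop :=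
  ∏ j ∈ range k, m j ≤ N ∨ ∀ j, C j ⊆ {0}

theorem rep_fin {A : Set ℕ} {F : Finset ℕ} (hF : ∀ a ∈ F, a ∈ A) (s : ℕ) :
    ((F ×ˢ F).filter (fun x => x.1 + x.2 = s)).card ≤ rep A s := by
  unfold rep
  rw [← Set.ncard_coe_finset]
  refine Set.ncard_le_ncard ?_ ?_
  · intro x hx
    simp only [coe_filter, mem_product, Set.mem_ofPred_eq] at hx ⊢
    exact ⟨hF _ hx.1.1, hF _ hx.1.2, hx.2⟩
  · refine (Finset.finite_toSet (antidiagonal s)).subset ?_
    intro x hx
    simp only [Set.mem_ofPred_eq] at hx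
    simpa using hx.2.2

theorem hits_mono (m : ℕ → ℕ) (C : ℕ → Finset ℕ) {y z : ℕ} (h : y ≤ z) (a : ℕ) :
    hits m C y a ≤ hits m C z a := by
  unfold hits
  refine card_le_card (filter_subset_filter _ ?_)
  exact range_subset_range.2 h

theorem sig_mono (m : ℕ → ℕ) (C : ℕ → Finset ℕ) {y z : ℕ} (h : y ≤ z) :
    sig m C y ≤ sig m C z := by
  unfold sig
  refine sum_le_sum_of_subset_of_nonneg ?_ fun _ _ _ => by positivity
  exact range_subset_range.2 h

theorem sig_nonneg (m : ℕ → ℕ) (C : ℕ → Finset ℕ) (y : ℕ) : 0 ≤ sig m C y := by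
  unfold sig
  positivity

theorem moment_fix {A : Set ℕ} {R N k : ℕ} {m : ℕ → ℕ} (hm : Moduli m) (C : ℕ → Finset ℕ)
    (hR : ∀ n, rep A n ≤ R) (hy : Adm m C k N) {F : Finset ℕ}
    (hF : ∀ a ∈ F, a ∈ A ∧ 1 ≤ a ∧ a ≤ N) {t : ℝ} (ht : 0 ≤ t) :
    ∑ a ∈ F, (1 + t) ^ hits m C k a ≤
      √(3 * R * N) * ∏ j ∈ range k, (1 + t * √((dbl m C j).card / m j)) :=
  moment hm.1 hm.2 (fun a ha => (hF a ha).2)
    (fun s => (rep_fin (fun a ha => (hF a ha).1) s).trans (hR s)) (range k) hy ht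

/-- all elements -/
theorem card_all {A : Set ℕ} {R N : ℕ} (hR : ∀ n, rep A n ≤ R) {F : Finset ℕ}
    (hF : ∀ a ∈ F, a ∈ A ∧ 1 ≤ a ∧ a ≤ N) : (F.card : ℝ) ≤ √(3 * R * N) := by
  have hm : Moduli (fun _ => 1) := ⟨fun _ => one_pos, fun _ _ _ => Nat.coprime_one_left 1⟩
  have h := moment_fix (t := 0) (k := 0) hm (fun _ => {0}) hR (Or.inr fun _ => subset_rfl) hF le_rfl
  simpa using h

/-- the exponent -/
noncomputable def rate (ρ : ℝ) : ℝ := ρ * Real.log ρ - ρ + 1

theorem rate_pos {ρ : ℝ} (h : 1 < ρ) : 0 < rate ρ := by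
  unfold rate
  have h1 : Real.log ρ⁻¹ < ρ⁻¹ - 1 :=
    Real.log_lt_sub_one_of_pos (by positivity) (by
      intro h2
      rw [inv_eq_one] at h2
      exact h.ne' h2)
  rw [Real.log_inv] at h1
  have h0 : 0 < ρ := by linarith
  have h2 : ρ * (-Real.log ρ) < ρ * (ρ⁻¹ - 1) := by gcongr
  rw [mul_sub, mul_inv_cancel₀ h0.ne'] at h2
  linarith

theorem chernoff {A : Set ℕ} {R N y : ℕ} {m : ℕ → ℕ} {C : ℕ → Finset ℕ} (hm : Moduli m) (hR : ∀ n, rep A n ≤ R)
    (hy : Adm m C y N) {F : Finset ℕ} (hF : ∀ a ∈ F, a ∈ A ∧ 1 ≤ a ∧ a ≤ N) {ρ : ℝ} (hρ : 1 < ρ)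
    (hw : ∀ a ∈ F, ρ * sig m C y ≤ hits m C y a) :
    (F.card : ℝ) ≤ √(3 * R * N) * Real.exp (-(rate ρ * sig m C y)) := by
  have h0 : 0 < ρ := by linarith
  have hl : 0 < Real.log ρ := Real.log_pos hρ
  have h1 := moment_fix hm C hR hy hF (t := ρ - 1) (by linarith)
  rw [add_sub_cancel] at h1
  have h2 : ∏ j ∈ range y, (1 + (ρ - 1) * √((dbl m C j).card / m j)) ≤
      Real.exp ((ρ - 1) * sig m C y) := by
    unfold sig
    rw [mul_sum, Real.exp_sum]
    refine prod_le_prod (fun p _ => ?_) fun p _ => ?_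
    · have : 0 ≤ ρ - 1 := by linarith
      positivity
    · rw [add_comm]
      exact Real.add_one_le_exp _
  have h3 : (F.card : ℝ) * Real.exp (ρ * sig m C y * Real.log ρ) ≤
      ∑ a ∈ F, ρ ^ hits m C y a := by
    rw [← nsmul_eq_mul]
    refine card_nsmul_le_sum _ _ _ fun a ha => ?_
    rw [← Real.rpow_natCast, Real.rpow_def_of_pos h0, mul_comm (Real.log ρ)]
    apply Real.exp_le_exp.2
    have := hw a ha
    gcongr
  have h4 : (F.card : ℝ) * Real.exp (ρ * sig m C y * Real.log ρ) ≤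
      √(3 * R * N) * Real.exp ((ρ - 1) * sig m C y) :=
    h3.trans (h1.trans (mul_le_mul_of_nonneg_left h2 (Real.sqrt_nonneg _)))
  have h5 : √(3 * R * N) * Real.exp (-(rate ρ * sig m C y)) =
      √(3 * R * N) * Real.exp ((ρ - 1) * sig m C y) / Real.exp (ρ * sig m C y * Real.log ρ) := by
    rw [mul_div_assoc, ← Real.exp_sub]
    congr 2
    unfold rate
    ring
  rw [h5, le_div_iff₀ (Real.exp_pos _)]
  exact h4

/-- the constant -/
noncomputable def cst (ρ : ℝ) : ℝ :=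
  Real.exp (rate ρ) + (1 - Real.exp (-(rate ρ * (ρ - 1))))⁻¹

theorem cst_pos {ρ : ℝ} (h : 1 < ρ) : 0 < cst ρ := by
  unfold cst
  have h1 : Real.exp (-(rate ρ * (ρ - 1))) < 1 := by
    rw [Real.exp_lt_one_iff]
    have := rate_pos h
    have : 0 < ρ - 1 := by linarith
    have := mul_pos (rate_pos h) this
    linarith
  have : 0 < 1 - Real.exp (-(rate ρ * (ρ - 1))) := by linarith
  positivity

theorem maximal {A : Set ℕ} {R N u : ℕ} {m : ℕ → ℕ} {C : ℕ → Finset ℕ} (hm : Moduli m) (hR : ∀ n, rep A n ≤ R)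
    {F : Finset ℕ} (hF : ∀ a ∈ F, a ∈ A ∧ 1 ≤ a ∧ a ≤ N) {ρ : ℝ} (hρ : 1 < ρ)
    (hw : ∀ a ∈ F, ∃ y, u ≤ y ∧ Adm m C y N ∧ ρ ^ 2 * sig m C y ≤ hits m C y a) :
    (F.card : ℝ) ≤ cst ρ * √(3 * R * N) * Real.exp (-(rate ρ * sig m C u)) := by
  classical
  have hI := rate_pos hρ
  have h0 : 0 < ρ := by linarith
  have hq1 : Real.exp (-(rate ρ * (ρ - 1))) < 1 := by
    rw [Real.exp_lt_one_iff]
    have := mul_pos hI (sub_pos.2 hρ)
    linarith
  have hq0 : 0 < 1 - Real.exp (-(rate ρ * (ρ - 1))) := by linarith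
  rcases F.eq_empty_or_nonempty with rfl | -
  · rw [card_empty, Nat.cast_zero]
    have := cst_pos hρ
    positivity
  rcases lt_or_ge (sig m C u) 1 with hs | hs
  · refine (card_all hR hF).trans ?_
    have h2 : 1 ≤ cst ρ * Real.exp (-(rate ρ * sig m C u)) := by
      have h3 : Real.exp (rate ρ) ≤ cst ρ := by
        unfold cst
        have : 0 < (1 - Real.exp (-(rate ρ * (ρ - 1))))⁻¹ := by positivity
        linarith
      calc (1 : ℝ) = Real.exp (rate ρ) * Real.exp (-rate ρ) := by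
            rw [← Real.exp_add, add_neg_cancel, Real.exp_zero]
        _ ≤ cst ρ * Real.exp (-(rate ρ * sig m C u)) := by
            have hc := (cst_pos hρ).le
            have h4 : -rate ρ ≤ -(rate ρ * sig m C u) := by nlinarith
            exact mul_le_mul h3 (Real.exp_le_exp.2 h4) (Real.exp_pos _).le hc
    calc √(3 * R * N) = √(3 * R * N) * 1 := (mul_one _).symm
      _ ≤ √(3 * R * N) * (cst ρ * Real.exp (-(rate ρ * sig m C u))) := by gcongr
      _ = _ := by ring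
  · set s := sig m C u with hsdef
    have hs0 : 0 < s := by linarith
    choose! y hy using hw
    have hex : ∀ a ∈ F, ∃ j : ℕ, ρ ^ j * s ≤ sig m C (y a) ∧ sig m C (y a) < ρ ^ (j + 1) * s := by
      intro a ha
      have h1 : 1 ≤ sig m C (y a) / s := by
        rw [le_div_iff₀ hs0, one_mul]
        exact sig_mono m C (hy a ha).1
      obtain ⟨j, hj1, hj2⟩ := exists_nat_pow_near h1 hρ
      refine ⟨j, ?_, ?_⟩
      · rwa [le_div_iff₀ hs0] at hj1
      · rwa [div_lt_iff₀ hs0] at hj2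
    choose! j hj using hex
    have h1 : ∀ i ∈ F.image j, ((F.filter (fun a => j a = i)).card : ℝ) ≤
        √(3 * R * N) * (Real.exp (-(rate ρ * s)) * Real.exp (-(rate ρ * (ρ - 1))) ^ i) := by
      intro i hi
      obtain ⟨a₁, ha₁, rfl⟩ := mem_image.1 hi
      let Q : ℕ → Prop := fun z => Adm m C z N ∧ sig m C z < ρ ^ (j a₁ + 1) * s
      let z : ℕ := Nat.findGreatest Q (F.sup y)
      have hz1 : ∀ a ∈ F, j a = j a₁ → y a ≤ z := by
        intro a ha hja
        refine Nat.le_findGreatest (le_sup ha) ⟨(hy a ha).2.1, ?_⟩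
        rw [← hja]
        exact (hj a ha).2
      have hz2 : Q z := by
        refine Nat.findGreatest_spec (P := Q) (m := y a₁) (le_sup ha₁) ⟨(hy a₁ ha₁).2.1, ?_⟩
        exact (hj a₁ ha₁).2
      have h2 : ((F.filter (fun a => j a = j a₁)).card : ℝ) ≤
          √(3 * R * N) * Real.exp (-(rate ρ * sig m C z)) := by
        refine chernoff hm hR hz2.1 (fun a ha => hF a (mem_filter.1 ha).1) hρ ?_
        intro a ha
        rw [mem_filter] at ha
        have h3 : (hits m C (y a) a : ℝ) ≤ hits m C z a := by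
          exact_mod_cast hits_mono m C (hz1 a ha.1 ha.2) a
        have h4 := (hy a ha.1).2.2
        have h5 := (hj a ha.1).1
        have h6 := hz2.2
        rw [ha.2] at h5
        calc ρ * sig m C z ≤ ρ * (ρ ^ (j a₁ + 1) * s) := by gcongr
          _ = ρ ^ 2 * (ρ ^ (j a₁) * s) := by ring
          _ ≤ ρ ^ 2 * sig m C (y a) := by gcongr
          _ ≤ _ := h4.trans h3
      refine h2.trans ?_
      have h7 : s * (1 + (j a₁ : ℝ) * (ρ - 1)) ≤ sig m C z := by
        have hb : 1 + (j a₁ : ℝ) * (ρ - 1) ≤ ρ ^ (j a₁) := by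
          have := one_add_mul_le_pow (show (-2 : ℝ) ≤ ρ - 1 by linarith) (j a₁)
          rwa [add_sub_cancel] at this
        calc s * (1 + (j a₁ : ℝ) * (ρ - 1)) ≤ s * ρ ^ (j a₁) := by gcongr
          _ = ρ ^ (j a₁) * s := mul_comm _ _
          _ ≤ sig m C (y a₁) := (hj a₁ ha₁).1
          _ ≤ sig m C z := sig_mono m C (hz1 a₁ ha₁ rfl)
      gcongr
      rw [← Real.exp_nat_mul, ← Real.exp_add]
      apply Real.exp_le_exp.2
      have h8 : 0 ≤ (s - 1) * ((j a₁ : ℝ) * (ρ - 1)) := by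
        have : 0 ≤ ρ - 1 := by linarith
        have : 0 ≤ s - 1 := by linarith
        positivity
      nlinarith
    have h2 : (F.card : ℝ) = ∑ i ∈ F.image j, ((F.filter (fun a => j a = i)).card : ℝ) := by
      rw [card_eq_sum_card_image j F]
      push_cast
      rfl
    rw [h2]
    refine (sum_le_sum h1).trans ?_
    rw [← mul_sum, ← mul_sum]
    have h3 : ∑ i ∈ F.image j, Real.exp (-(rate ρ * (ρ - 1))) ^ i ≤
        (1 - Real.exp (-(rate ρ * (ρ - 1))))⁻¹ := by
      rw [← tsum_geometric_of_lt_one (Real.exp_pos _).le hq1]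
      exact Summable.sum_le_tsum _ (fun _ _ => by positivity)
        (summable_geometric_of_lt_one (Real.exp_pos _).le hq1)
    have h4 : (1 - Real.exp (-(rate ρ * (ρ - 1))))⁻¹ ≤ cst ρ := by
      unfold cst
      have := Real.exp_pos (rate ρ)
      linarith
    calc _ ≤ √(3 * R * N) * (Real.exp (-(rate ρ * s)) * cst ρ) := by
          gcongr
          exact h3.trans h4
      _ = _ := by ring

end Pool.Agent.E8helper93.LS
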