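import Mathlib

/-!
Moments of the number of moduli `m j` with `a mod m j ∈ C j`, for sets with bounded representation
function.
-/

set_option autoImplicit false

namespace Pool.Agent.E8helper93.LS

open Finset

/-- the residues modulo `m j` of the sums of two elements of `C j` -/
def dbl (m : ℕ → ℕ) (C : ℕ → Finset ℕ) (j : ℕ) : Finset ℕ :=
  (C j ×ˢ C j).image (fun x => (x.1 + x.2) % m j)

/-- integers in a residue class -/
theorem class_card {G : Finset ℕ} {L d : ℕ} (hG : ∀ s ∈ G, s ≤ L)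
    (hc : ∀ s ∈ G, ∀ s' ∈ G, s ≡ s' [MOD d]) : G.card ≤ L / d + 1 := by
  have h2 : G.card ≤ (range (L / d + 1)).card := by
    refine card_le_card_of_injOn (fun s => s / d) ?_ ?_
    · intro s hs
      simp only [coe_range, Set.mem_Iio]
      have := Nat.div_le_div_right (c := d) (hG s hs)
      omega
    · intro s hs s' hs' he
      have e1 := hc s hs s' hs'
      simp only at he
      rw [← Nat.div_add_mod s d, he, e1, Nat.div_add_mod]
  simpa using h2

/-- integers in prescribed residue classes -/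
theorem sieve_card {m : ℕ → ℕ} {D : ℕ → Finset ℕ} {L : ℕ} (hm : ∀ j, 0 < m j)
    (hco : ∀ i j, i ≠ j → Nat.Coprime (m i) (m j)) (T : Finset ℕ) :
    ∀ (G : Finset ℕ) (d : ℕ), 0 < d → (∀ j ∈ T, Nat.Coprime d (m j)) → (∀ s ∈ G, s ≤ L) →
    (∀ s ∈ G, ∀ s' ∈ G, s ≡ s' [MOD d]) →
    (G.filter (fun s => ∀ j ∈ T, s % m j ∈ D j)).card ≤
      (L / (d * ∏ j ∈ T, m j) + 1) * ∏ j ∈ T, (D j).card := by
  classical
  induction T using Finset.induction_on with
  | empty =>
    intro G d hd _ hG hc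
    simp only [notMem_empty, IsEmpty.forall_iff, implies_true, filter_true, prod_empty, mul_one]
    exact class_card hG hc
  | insert q T hq ih =>
    intro G d hd hcop hG hc
    have h1 : ∀ c ∈ D q, ((G.filter (fun s => s % m q = c)).filter
        (fun s => ∀ j ∈ T, s % m j ∈ D j)).card ≤
        (L / (d * ∏ j ∈ insert q T, m j) + 1) * ∏ j ∈ T, (D j).card := by
      intro c _
      have h2 := ih (G.filter (fun s => s % m q = c)) (d * m q) (Nat.mul_pos hd (hm q))
        (fun j hj => Nat.Coprime.mul_left (hcop j (mem_insert_of_mem hj))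
          (hco q j (fun e => hq (e ▸ hj))))
        (fun s hs => hG s (mem_filter.1 hs).1)
        (fun s hs s' hs' => by
          rw [mem_filter] at hs hs'
          rw [← Nat.modEq_and_modEq_iff_modEq_mul (hcop q (mem_insert_self _ _))]
          exact ⟨hc s hs.1 s' hs'.1, hs.2.trans hs'.2.symm⟩)
      rw [prod_insert hq, ← mul_assoc]
      exact h2
    have h3 : (G.filter (fun s => ∀ j ∈ insert q T, s % m j ∈ D j)).card =
        ∑ c ∈ D q, ((G.filter (fun s => s % m q = c)).filter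
        (fun s => ∀ j ∈ T, s % m j ∈ D j)).card := by
      rw [card_eq_sum_card_fiberwise (f := fun s => s % m q) (t := D q)]
      · refine sum_congr rfl fun c hc' => ?_
        congr 1
        ext s
        simp only [mem_filter, mem_insert, forall_eq_or_imp]
        constructor
        · rintro ⟨⟨h1, h2, h3⟩, h4⟩
          exact ⟨⟨h1, h4⟩, h3⟩
        · rintro ⟨⟨h1, h4⟩, h3⟩
          exact ⟨⟨h1, h4 ▸ hc', h3⟩, h4⟩
      · intro s hs
        exact (mem_filter.1 hs).2 q (mem_insert_self _ _)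
    rw [h3]
    refine (sum_le_card_nsmul _ _ _ h1).trans (le_of_eq ?_)
    rw [smul_eq_mul, prod_insert hq (f := fun j => (D j).card)]
    ring

/-- the elements with prescribed residues -/
theorem part_le {F : Finset ℕ} {N R : ℕ} {m : ℕ → ℕ} {C : ℕ → Finset ℕ} (hm : ∀ j, 0 < m j)
    (hco : ∀ i j, i ≠ j → Nat.Coprime (m i) (m j)) (hF : ∀ a ∈ F, 1 ≤ a ∧ a ≤ N)
    (hr : ∀ s, ((F ×ˢ F).filter (fun x => x.1 + x.2 = s)).card ≤ R) (T : Finset ℕ)
    (h0 : ∏ j ∈ T, m j ≤ N ∨ ∀ j, C j ⊆ {0}) :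
    ((F.filter (fun a => ∀ j ∈ T, a % m j ∈ C j)).card : ℝ) ≤
      √(3 * R * N) * ∏ j ∈ T, √((dbl m C j).card / m j) := by
  classical
  set G := F.filter (fun a => ∀ j ∈ T, a % m j ∈ C j) with hG
  rcases G.eq_empty_or_nonempty with h | ⟨a₀, ha₀⟩
  · rw [h, card_empty, Nat.cast_zero]
    positivity
  have hd0 : 0 < ∏ j ∈ T, m j := prod_pos fun j _ => hm j
  have hdN : ∏ j ∈ T, m j ≤ N := by
    rcases h0 with h | h
    · exact h
    · rw [hG, mem_filter] at ha₀
      refine le_trans (Nat.le_of_dvd (hF a₀ ha₀.1).1 ?_) (hF a₀ ha₀.1).2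
      refine Finset.prod_dvd_of_isRelPrime ?_ ?_
      · intro i _ j _ hij
        exact Nat.coprime_iff_isRelPrime.1 (hco i j hij)
      · intro j hj
        have h1 := h j (ha₀.2 j hj)
        rw [mem_singleton] at h1
        exact Nat.dvd_of_mod_eq_zero h1
  have h1 : G.card * G.card ≤ R * ((2 * N / (1 * ∏ j ∈ T, m j) + 1) *
      ∏ j ∈ T, (dbl m C j).card) := by
    rw [← card_product]
    have h1 : (G ×ˢ G).card ≤ R * ((G ×ˢ G).image (fun x => x.1 + x.2)).card := by
      refine card_le_mul_card_image _ _ fun s _ => ?_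
      refine (card_le_card ?_).trans (hr s)
      exact filter_subset_filter _ (product_subset_product (filter_subset _ _) (filter_subset _ _))
    refine h1.trans (Nat.mul_le_mul_left _ ?_)
    refine le_trans (card_le_card ?_) (sieve_card (D := dbl m C) (L := 2 * N) hm hco T
      (range (2 * N + 1)) 1 one_pos (fun j _ => Nat.coprime_one_left _)
      (fun s hs => by rw [mem_range] at hs; omega) (fun _ _ _ _ => Nat.modEq_one))
    intro s hs
    simp only [mem_image, mem_product] at hs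
    obtain ⟨x, ⟨hx1, hx2⟩, rfl⟩ := hs
    rw [hG, mem_filter] at hx1 hx2
    rw [mem_filter, mem_range]
    refine ⟨?_, fun j hj => ?_⟩
    · have := (hF _ hx1.1).2
      have := (hF _ hx2.1).2
      omega
    · unfold dbl
      rw [mem_image]
      exact ⟨(x.1 % m j, x.2 % m j), mem_product.2 ⟨hx1.2 j hj, hx2.2 j hj⟩,
        (Nat.add_mod _ _ _).symm⟩
  rw [one_mul] at h1
  have hdr : (0 : ℝ) < ((∏ j ∈ T, m j : ℕ) : ℝ) := by exact_mod_cast hd0
  have h2 : ((2 * N / (∏ j ∈ T, m j) : ℕ) : ℝ) + 1 ≤ 3 * N / ((∏ j ∈ T, m j : ℕ) : ℝ) := by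
    have h3 : ((2 * N / (∏ j ∈ T, m j) : ℕ) : ℝ) ≤ 2 * N / ((∏ j ∈ T, m j : ℕ) : ℝ) := by
      refine (Nat.cast_div_le).trans ?_
      push_cast
      exact le_rfl
    have h4 : (1 : ℝ) ≤ N / ((∏ j ∈ T, m j : ℕ) : ℝ) := by
      rw [one_le_div hdr]
      exact_mod_cast hdN
    calc _ ≤ 2 * N / ((∏ j ∈ T, m j : ℕ) : ℝ) + N / ((∏ j ∈ T, m j : ℕ) : ℝ) := add_le_add h3 h4
      _ = _ := by ring
  have h3 : ∏ j ∈ T, √(((dbl m C j).card : ℝ) / m j) =
      √(∏ j ∈ T, (((dbl m C j).card : ℝ) / m j)) := by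
    rw [Real.sqrt_prod _ (fun j _ => by positivity)]
  rw [h3, ← Real.sqrt_mul (by positivity)]
  apply Real.le_sqrt_of_sq_le
  have h4 : ((G.card * G.card : ℕ) : ℝ) ≤ ((R * ((2 * N / (∏ j ∈ T, m j) + 1) *
      ∏ j ∈ T, (dbl m C j).card) : ℕ) : ℝ) := by exact_mod_cast h1
  rw [Nat.cast_mul, Nat.cast_mul, Nat.cast_mul, Nat.cast_add, Nat.cast_one, Nat.cast_prod,
    ← sq] at h4
  refine h4.trans ?_
  calc (R : ℝ) * ((((2 * N / (∏ j ∈ T, m j) : ℕ) : ℝ) + 1) * ∏ j ∈ T, ((dbl m C j).card : ℝ)) ≤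
        R * (3 * N / ((∏ j ∈ T, m j : ℕ) : ℝ) * ∏ j ∈ T, ((dbl m C j).card : ℝ)) := by
          gcongr
    _ = 3 * R * N * ∏ j ∈ T, (((dbl m C j).card : ℝ) / m j) := by
        rw [prod_div_distrib, Nat.cast_prod]
        ring

/-- the moment inequality -/
theorem moment {F : Finset ℕ} {N R : ℕ} {m : ℕ → ℕ} {C : ℕ → Finset ℕ} (hm : ∀ j, 0 < m j)
    (hco : ∀ i j, i ≠ j → Nat.Coprime (m i) (m j)) (hF : ∀ a ∈ F, 1 ≤ a ∧ a ≤ N)
    (hr : ∀ s, ((F ×ˢ F).filter (fun x => x.1 + x.2 = s)).card ≤ R) (P : Finset ℕ)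
    (h0 : ∏ j ∈ P, m j ≤ N ∨ ∀ j, C j ⊆ {0}) {t : ℝ} (ht : 0 ≤ t) :
    ∑ a ∈ F, (1 + t) ^ (P.filter (fun j => a % m j ∈ C j)).card ≤
      √(3 * R * N) * ∏ j ∈ P, (1 + t * √((dbl m C j).card / m j)) := by
  classical
  have h1 : ∀ a, (1 + t) ^ (P.filter (fun j => a % m j ∈ C j)).card =
      ∑ T ∈ P.powerset, if (∀ j ∈ T, a % m j ∈ C j) then t ^ T.card else 0 := by
    intro a
    rw [← prod_const, prod_filter]
    have h2 : ∀ j ∈ P, (if a % m j ∈ C j then (1 + t) else 1) =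
        1 + (if a % m j ∈ C j then t else 0) := by
      intro j _
      split_ifs <;> ring
    rw [prod_congr rfl h2, prod_one_add]
    refine sum_congr rfl fun T _ => ?_
    split_ifs with h
    · rw [prod_congr rfl (fun j hj => if_pos (h j hj)), prod_const]
    · push Not at h
      obtain ⟨j, hj, hj'⟩ := h
      exact prod_eq_zero hj (if_neg hj')
  simp only [h1]
  rw [sum_comm, prod_one_add, mul_sum]
  refine sum_le_sum fun T hT => ?_
  rw [mem_powerset] at hT
  rw [← sum_filter, sum_const, nsmul_eq_mul, prod_mul_distrib, prod_const]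
  have h2 := part_le hm hco hF hr T (C := C) (by
    rcases h0 with h | h
    · left
      refine le_trans ?_ h
      exact prod_le_prod_of_subset_of_one_le' hT fun j _ _ => hm j
    · exact Or.inr h)
  calc _ ≤ (√(3 * R * N) * ∏ j ∈ T, √((dbl m C j).card / m j)) * t ^ T.card := by
        gcongr
    _ = _ := by ring

end Pool.Agent.E8helper93.LS
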