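import Pool.Agent.E8helper93.LS.Max
import Pool.Agent.H78R2.ET.Maj

/-!
Riesz products over coprime moduli.
-/

set_option autoImplicit false

namespace Pool.Agent.E8helper93.LS

open Finset
open Pool.Agent.H78R2.ET (ee norm_ee)

/-- two coprime periods -/
theorem sum_two {M m : ℕ} (hM : 0 < M) (hm : 0 < m) (hc : Nat.Coprime M m) {F f : ℕ → ℝ}
    (hF : ∀ n, F (n % M) = F n) (hf : ∀ n, f (n % m) = f n) :
    ∑ n ∈ range (M * m), F n * f n = (∑ n ∈ range M, F n) * ∑ n ∈ range m, f n := by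
  rw [sum_mul_sum, ← sum_product']
  refine sum_nbij (fun n => (n % M, n % m)) ?_ ?_ ?_ ?_
  · intro n _
    rw [mem_product, mem_range, mem_range]
    exact ⟨Nat.mod_lt _ hM, Nat.mod_lt _ hm⟩
  · intro a ha b hb hab
    simp only [coe_range, Set.mem_Iio] at ha hb
    simp only [Prod.mk.injEq] at hab
    have h1 : a ≡ b [MOD M * m] := (Nat.modEq_and_modEq_iff_modEq_mul hc).1 ⟨hab.1, hab.2⟩
    exact Nat.ModEq.eq_of_lt_of_lt h1 ha hb
  · rintro ⟨x, y⟩ hxy
    simp only [coe_product, coe_range, Set.mem_prod, Set.mem_Iio] at hxy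
    refine ⟨Nat.chineseRemainder hc x y, ?_, ?_⟩
    · simp only [coe_range, Set.mem_Iio]
      exact Nat.chineseRemainder_lt_mul hc x y hM.ne' hm.ne'
    · have h1 := (Nat.chineseRemainder hc x y).2
      simp only [Prod.mk.injEq]
      exact ⟨Nat.mod_eq_of_modEq h1.1 hxy.1, Nat.mod_eq_of_modEq h1.2 hxy.2⟩
  · intro n _
    rw [hF, hf]

/-- several coprime periods -/
theorem sum_prod_eq {m : ℕ → ℕ} (hm : Moduli m) {f : ℕ → ℕ → ℝ}
    (hf : ∀ j n, f j (n % m j) = f j n) (J : Finset ℕ) :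
    ∑ n ∈ range (∏ j ∈ J, m j), ∏ j ∈ J, f j n = ∏ j ∈ J, ∑ n ∈ range (m j), f j n := by
  classical
  induction J using Finset.induction_on with
  | empty => simp
  | insert q J hq ih =>
    simp only [prod_insert hq]
    have hco : Nat.Coprime (m q) (∏ j ∈ J, m j) :=
      Nat.Coprime.prod_right fun j hj => hm.2 q j (fun e => hq (e ▸ hj))
    have h := sum_two (hm.1 q) (prod_pos fun j _ => hm.1 j) hco (F := f q)
      (f := fun n => ∏ j ∈ J, f j n) (hf q) (fun n => by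
        refine prod_congr rfl fun j hj => ?_
        rw [← hf j (n % ∏ j ∈ J, m j), Nat.mod_mod_of_dvd _ (dvd_prod_of_mem m hj), hf])
    rw [h, ih]

/-- a nonnegative periodic function up to `L` -/
theorem sum_periodic_le {M L : ℕ} (hM : 0 < M) {W : ℕ → ℝ} (hW : ∀ n, 0 ≤ W n)
    (hp : ∀ n, W (n % M) = W n) :
    ∑ n ∈ range (L + 1), W n ≤ ((L / M : ℕ) + 1) * ∑ n ∈ range M, W n := by
  have h1 : ∀ q : ℕ, ∑ n ∈ range (q * M), W n = q * ∑ n ∈ range M, W n := by
    intro q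
    induction q with
    | zero => simp
    | succ q ih =>
      rw [Nat.succ_mul, sum_range_add, ih]
      have h2 : ∀ i ∈ range M, W (q * M + i) = W i := by
        intro i hi
        rw [← hp (q * M + i), Nat.mul_add_mod', Nat.mod_eq_of_lt (mem_range.1 hi)]
      rw [sum_congr rfl h2]
      push_cast
      ring
  have h2 : range (L + 1) ⊆ range ((L / M + 1) * M) := by
    refine range_subset_range.2 ?_
    have := Nat.lt_div_mul_add hM (a := L)
    rw [add_mul, one_mul]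
    omega
  refine (sum_le_sum_of_subset_of_nonneg h2 fun n _ _ => hW n).trans (le_of_eq ?_)
  rw [h1]
  push_cast
  ring

/-- the exponential sum over a full period -/
theorem sum_ee {m : ℕ} (hm : 0 < m) {r : ℤ} (hr : ¬ (m : ℤ) ∣ r) :
    ∑ n ∈ range m, ee ((r : ℝ) / m * n) = 0 := by
  have h := Pool.Agent.H380R2.geom_exp m hm r
  rw [if_neg hr] at h
  rw [← h]
  refine sum_congr rfl fun n _ => ?_
  unfold ee
  congr 1
  push_cast
  ring

theorem ee_int (n : ℤ) : ee (n : ℝ) = 1 := by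
  unfold ee
  rw [Complex.exp_eq_one_iff]
  exact ⟨n, by push_cast; ring⟩

theorem ee_add (s t : ℝ) : ee (s + t) = ee s * ee t := by
  unfold ee
  rw [← Complex.exp_add]
  congr 1
  push_cast
  ring

theorem ee_periodic {m : ℕ} (hm : 0 < m) (r : ℤ) (n : ℕ) :
    ee ((r : ℝ) / m * (n % m : ℕ)) = ee ((r : ℝ) / m * n) := by
  have hm' : (m : ℝ) ≠ 0 := by exact_mod_cast hm.ne'
  have h : ((r : ℝ) / m * n) = ((r * ((n / m : ℕ) : ℤ) : ℤ) : ℝ) + (r : ℝ) / m * (n % m : ℕ) := by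
    have h1 : (n : ℝ) = (m : ℝ) * (n / m : ℕ) + (n % m : ℕ) := by
      exact_mod_cast (Nat.div_add_mod n m).symm
    conv_lhs => rw [h1]
    rw [Int.cast_mul, Int.cast_natCast]
    field_simp
  rw [h, ee_add, ee_int, one_mul]

/-- `exp (x - 2 x²) ≤ 1 + x` -/
theorem exp_le_one_add {x : ℝ} (hx : |x| ≤ 1 / 2) : Real.exp (x - 2 * x ^ 2) ≤ 1 + x := by
  have h1 := Real.abs_log_sub_add_sum_range_le (x := -x) (by rw [abs_neg]; linarith) 1
  simp only [range_one, sum_singleton, zero_add, pow_one, Nat.cast_zero, div_one, abs_neg,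
    sub_neg_eq_add] at h1
  have h2 : |x| ^ (1 + 1) / (1 - |x|) ≤ 2 * x ^ 2 := by
    rw [div_le_iff₀ (by linarith), ← sq_abs x, show (1 + 1 : ℕ) = 2 from rfl]
    nlinarith [mul_nonneg (sq_nonneg |x|) (show 0 ≤ 1 - 2 * |x| by linarith)]
  have h3 := (abs_le.1 (h1.trans h2)).1
  have h4 : 0 < 1 + x := by
    have := (abs_le.1 hx).1
    linarith
  rw [← Real.exp_log h4]
  apply Real.exp_le_exp.2
  linarith

/-- Jensen's inequality -/
theorem jensen {ι : Type*} (s : Finset ι) (g : ι → ℝ) (hs : 0 < s.card) :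
    (s.card : ℝ) * Real.exp ((∑ i ∈ s, g i) / s.card) ≤ ∑ i ∈ s, Real.exp (g i) := by
  set b := (∑ i ∈ s, g i) / s.card with hb
  have hs' : (0 : ℝ) < s.card := by exact_mod_cast hs
  have h1 : ∀ i ∈ s, Real.exp b * (1 + (g i - b)) ≤ Real.exp (g i) := by
    intro i _
    have h2 : Real.exp (g i) = Real.exp b * Real.exp (g i - b) := by
      rw [← Real.exp_add]
      congr 1
      ring
    rw [h2]
    have := Real.add_one_le_exp (g i - b)
    gcongr
    linarith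
  refine le_trans (le_of_eq ?_) (sum_le_sum h1)
  rw [← mul_sum, sum_add_distrib, sum_sub_distrib, sum_const, sum_const, nsmul_eq_mul,
    nsmul_eq_mul, mul_one, hb]
  field_simp
  ring

/-- **Riesz product inequality.** -/
theorem riesz {F : Finset ℕ} {N R : ℕ} {m : ℕ → ℕ} (hm : Moduli m) {J : Finset ℕ}
    (hJ : ∏ j ∈ J, m j ≤ N) {r : ℕ → ℤ} (hr : ∀ j ∈ J, ¬ (m j : ℤ) ∣ r j)
    (hF : ∀ a ∈ F, a ≤ N) (hF0 : 0 < F.card)
    (hrep : ∀ s, ((F ×ˢ F).filter (fun x => x.1 + x.2 = s)).card ≤ R)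
    {η : ℝ} (hη0 : 0 ≤ η) (hη : η ≤ 1 / 2) :
    (F.card : ℝ) ^ 2 * Real.exp (η * (∑ j ∈ J, ‖∑ a ∈ F, ee ((r j : ℝ) / m j * a)‖ ^ 2) /
      (F.card : ℝ) ^ 2 - 2 * η ^ 2 * J.card) ≤ 3 * R * N := by
  classical
  set S : ℕ → ℂ := fun j => ∑ a ∈ F, ee ((r j : ℝ) / m j * a) with hS
  have hω : ∀ j, ∃ ω : ℂ, ‖ω‖ = 1 ∧ (ω * (S j * S j)).re = ‖S j‖ ^ 2 := by
    intro j
    by_cases h : S j = 0
    · exact ⟨1, norm_one, by rw [h]; simp⟩
    · have h1 : (‖S j‖ : ℂ) ≠ 0 := by exact_mod_cast (norm_ne_zero_iff.2 h)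
      refine ⟨(starRingEnd ℂ) (S j) * (starRingEnd ℂ) (S j) / (‖S j‖ : ℂ) ^ 2, ?_, ?_⟩
      · rw [norm_div, norm_mul, RCLike.norm_conj, norm_pow, Complex.norm_real, norm_norm, ← sq]
        exact div_self (pow_ne_zero 2 (norm_ne_zero_iff.2 h))
      · have h2 : (starRingEnd ℂ) (S j) * (starRingEnd ℂ) (S j) / (‖S j‖ : ℂ) ^ 2 *
            (S j * S j) = ((‖S j‖ ^ 2 : ℝ) : ℂ) := by
          have h3 : (starRingEnd ℂ) (S j) * S j = (‖S j‖ : ℂ) ^ 2 := by
            rw [mul_comm, Complex.mul_conj, Complex.normSq_eq_norm_sq]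
            push_cast
            rfl
          have h4 : (starRingEnd ℂ) (S j) * (starRingEnd ℂ) (S j) / (‖S j‖ : ℂ) ^ 2 *
            (S j * S j) = ((starRingEnd ℂ) (S j) * S j) * ((starRingEnd ℂ) (S j) * S j) /
              (‖S j‖ : ℂ) ^ 2 := by ring
          rw [h4, h3]
          push_cast
          field_simp
        rw [h2, Complex.ofReal_re]
  choose ω hω1 hω2 using hω
  let f : ℕ → ℕ → ℝ := fun j n => 1 + η * (ω j * ee ((r j : ℝ) / m j * n)).re
  have hre : ∀ j n, |η * (ω j * ee ((r j : ℝ) / m j * (n : ℕ))).re| ≤ η := by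
    intro j n
    rw [abs_mul, abs_of_nonneg hη0]
    have h1 : |(ω j * ee ((r j : ℝ) / m j * n)).re| ≤ 1 := by
      refine (Complex.abs_re_le_norm _).trans ?_
      rw [norm_mul, hω1, norm_ee, mul_one]
    calc η * |(ω j * ee ((r j : ℝ) / m j * n)).re| ≤ η * 1 := by gcongr
      _ = η := mul_one _
  have hf0 : ∀ j n, 0 ≤ f j n := by
    intro j n
    have := (abs_le.1 (hre j n)).1
    change 0 ≤ 1 + η * (ω j * ee ((r j : ℝ) / m j * n)).re
    linarith
  have hfp : ∀ j n, f j (n % m j) = f j n := by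
    intro j n
    change 1 + η * (ω j * ee ((r j : ℝ) / m j * (n % m j : ℕ))).re = _
    rw [ee_periodic (hm.1 j)]
  have hfm : ∀ j ∈ J, ∑ n ∈ range (m j), f j n = m j := by
    intro j hj
    change ∑ n ∈ range (m j), (1 + η * (ω j * ee ((r j : ℝ) / m j * n)).re) = m j
    rw [sum_add_distrib, ← mul_sum, ← Complex.re_sum, ← mul_sum, sum_ee (hm.1 j) (hr j hj)]
    simp
  set M : ℕ := ∏ j ∈ J, m j with hM
  have hM0 : 0 < M := prod_pos fun j _ => hm.1 j
  let W : ℕ → ℝ := fun n => ∏ j ∈ J, f j n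
  have hW0 : ∀ n, 0 ≤ W n := fun n => prod_nonneg fun j _ => hf0 j n
  have hWp : ∀ n, W (n % M) = W n := by
    intro n
    refine prod_congr rfl fun j hj => ?_
    rw [← hfp j (n % M), Nat.mod_mod_of_dvd _ (dvd_prod_of_mem m hj), hfp]
  have hWs : ∑ n ∈ range M, W n = M := by
    have h1 := sum_prod_eq hm hfp J
    rw [prod_congr rfl hfm] at h1
    rw [hM, Nat.cast_prod]
    exact h1
  -- upper bound
  have hup : ∑ x ∈ F ×ˢ F, W (x.1 + x.2) ≤ 3 * R * N := by
    have h1 : ∑ x ∈ F ×ˢ F, W (x.1 + x.2) =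
        ∑ s ∈ range (2 * N + 1), (((F ×ˢ F).filter (fun x => x.1 + x.2 = s)).card : ℝ) * W s := by
      rw [← sum_fiberwise_of_maps_to (t := range (2 * N + 1)) (g := fun x : ℕ × ℕ => x.1 + x.2)]
      · refine sum_congr rfl fun s _ => ?_
        rw [← nsmul_eq_mul, ← sum_const]
        exact sum_congr rfl fun x hx => by rw [(mem_filter.1 hx).2]
      · intro x hx
        rw [mem_product] at hx
        rw [mem_range]
        have := hF _ hx.1
        have := hF _ hx.2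
        omega
    rw [h1]
    have h2 : ∑ s ∈ range (2 * N + 1), (((F ×ˢ F).filter (fun x => x.1 + x.2 = s)).card : ℝ) * W s
        ≤ R * ∑ s ∈ range (2 * N + 1), W s := by
      rw [mul_sum]
      refine sum_le_sum fun s _ => ?_
      have := hW0 s
      have h3 : (((F ×ˢ F).filter (fun x => x.1 + x.2 = s)).card : ℝ) ≤ R := by
        exact_mod_cast hrep s
      gcongr
    refine h2.trans ?_
    have h3 := sum_periodic_le (L := 2 * N) hM0 hW0 hWp
    rw [hWs] at h3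
    have h4 : (((2 * N / M : ℕ) : ℝ) + 1) * M ≤ 3 * N := by
      have h5 : ((2 * N / M : ℕ) * M : ℕ) ≤ 2 * N := Nat.div_mul_le_self _ _
      have h6 : ((((2 * N / M : ℕ) * M : ℕ)) : ℝ) ≤ 2 * N := by exact_mod_cast h5
      have h7 : (M : ℝ) ≤ N := by exact_mod_cast hJ
      push_cast at h6 ⊢
      linarith
    calc (R : ℝ) * ∑ s ∈ range (2 * N + 1), W s ≤ R * (3 * N) := by
          gcongr
          exact h3.trans h4
      _ = 3 * R * N := by ring
  -- lower bound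
  have hlow : ∀ n : ℕ, Real.exp (∑ j ∈ J, (η * (ω j * ee ((r j : ℝ) / m j * n)).re - 2 * η ^ 2)) ≤
      W n := by
    intro n
    rw [Real.exp_sum]
    refine prod_le_prod (fun j _ => (Real.exp_pos _).le) fun j _ => ?_
    have h1 := exp_le_one_add ((hre j n).trans hη)
    refine le_trans (Real.exp_le_exp.2 ?_) h1
    have h2 : (η * (ω j * ee ((r j : ℝ) / m j * n)).re) ^ 2 ≤ η ^ 2 := by
      rw [← sq_abs]
      have := hre j n
      gcongr
    linarith
  have hF' : 0 < (F ×ˢ F).card := by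
    rw [card_product]
    exact Nat.mul_pos hF0 hF0
  have h1 := jensen (F ×ˢ F) (fun x => ∑ j ∈ J,
    (η * (ω j * ee ((r j : ℝ) / m j * (x.1 + x.2 : ℕ))).re - 2 * η ^ 2)) hF'
  have h2 : ∑ x ∈ F ×ˢ F, ∑ j ∈ J,
      (η * (ω j * ee ((r j : ℝ) / m j * (x.1 + x.2 : ℕ))).re - 2 * η ^ 2) =
      η * ∑ j ∈ J, ‖S j‖ ^ 2 - 2 * η ^ 2 * J.card * (F.card : ℝ) ^ 2 := by
    rw [sum_comm]
    have h3 : ∀ j ∈ J, ∑ x ∈ F ×ˢ F,
        (η * (ω j * ee ((r j : ℝ) / m j * (x.1 + x.2 : ℕ))).re - 2 * η ^ 2) =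
        η * ‖S j‖ ^ 2 - 2 * η ^ 2 * (F.card : ℝ) ^ 2 := by
      intro j _
      rw [sum_sub_distrib, ← mul_sum, ← Complex.re_sum, ← mul_sum, sum_const, card_product,
        nsmul_eq_mul]
      have h4 : ∑ x ∈ F ×ˢ F, ee ((r j : ℝ) / m j * (x.1 + x.2 : ℕ)) = S j * S j := by
        rw [hS]
        simp only
        rw [sum_mul_sum, ← sum_product']
        refine sum_congr rfl fun x _ => ?_
        rw [← ee_add]
        congr 1
        push_cast
        ring
      rw [h4, hω2]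
      push_cast
      ring
    rw [sum_congr rfl h3, sum_sub_distrib, ← mul_sum, sum_const, nsmul_eq_mul]
    ring
  rw [h2] at h1
  have hFr : (0 : ℝ) < F.card := by exact_mod_cast hF0
  have h3 : (((F ×ˢ F).card : ℕ) : ℝ) = (F.card : ℝ) ^ 2 := by
    rw [card_product]
    push_cast
    ring
  rw [h3] at h1
  have h4 : (η * ∑ j ∈ J, ‖S j‖ ^ 2 - 2 * η ^ 2 * J.card * (F.card : ℝ) ^ 2) /
      (F.card : ℝ) ^ 2 = η * (∑ j ∈ J, ‖S j‖ ^ 2) / (F.card : ℝ) ^ 2 - 2 * η ^ 2 * J.card := by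
    field_simp
  rw [h4] at h1
  refine h1.trans (le_trans (sum_le_sum fun x _ => hlow _) hup)

end Pool.Agent.E8helper93.LS
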