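import Pool.Agent.E8helper93.LS.Irr

/-!
Thresholds and reductions.
-/

set_option autoImplicit false

namespace Pool.Agent.E8helper93.LS

open Finset Filter Topology

/-- `n` is rich: for some `k ≥ u n` it has at least `(1 + δ) sig m C k` hits up to `k` -/
def Rich (m : ℕ → ℕ) (C : ℕ → Finset ℕ) (u : ℕ → ℕ) (δ : ℝ) (n : ℕ) : Prop :=
  ∃ k, u n ≤ k ∧ Adm m C k n ∧ (1 + δ) * sig m C k ≤ hits m C k n

/-- `n` is irregular: for some `k ≥ u n` such that the product of the first `k` moduli is at most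
`n` the points `r j n / m j`, `j < k`, have discrepancy at least `ε` -/
def Irr (m : ℕ → ℕ) (r : ℕ → ℤ) (u : ℕ → ℕ) (ε : ℝ) (n : ℕ) : Prop :=
  ∃ k, u n ≤ k ∧ ∏ j ∈ range k, m j ≤ n ∧
    Pool.Agent.H78R2.ET.Uneven ε (range k) (fun j => (r j : ℝ) / m j * n)

/-- `g` forces unbounded representations inside the class `P` of sets of natural numbers. -/
def ForcesIn (P : Set ℕ → Prop) (g : ℕ → ℝ) : Prop :=
  ∀ A : Set ℕ, P A →
    (∃ C : ℝ, 0 < C ∧ ∀ᶠ N : ℕ in atTop, √(N : ℝ) / g N ≤ C * ((A ∩ Set.Icc 1 N).ncard : ℝ)) →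
    ∀ K : ℕ, ∃ m, K ≤ rep A m

theorem adm_mono {m : ℕ → ℕ} {C : ℕ → Finset ℕ} {y n N : ℕ} (h : Adm m C y n) (hn : n ≤ N) :
    Adm m C y N := by
  rcases h with h | h
  · exact Or.inl (h.trans hn)
  · exact Or.inr h

theorem rep_mono {A B : Set ℕ} (h : A ⊆ B) (m : ℕ) : rep A m ≤ rep B m := by
  unfold rep
  refine Set.ncard_le_ncard ?_ ?_
  · intro x hx
    exact ⟨h hx.1, h hx.2.1, hx.2.2⟩
  · refine (Finset.finite_toSet (antidiagonal m)).subset ?_
    intro x hx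
    have := hx.2.2
    simpa using this

/-- all elements -/
theorem count_all {A : Set ℕ} {R M : ℕ} (hR : ∀ n, rep A n ≤ R) :
    ((A ∩ Set.Icc 1 M).ncard : ℝ) ≤ √(3 * R * M) := by
  have hfin : (A ∩ Set.Icc 1 M).Finite := (Set.finite_Icc 1 M).inter_of_right _
  have h : ∀ a ∈ hfin.toFinset, a ∈ A ∧ 1 ≤ a ∧ a ≤ M := by
    intro a ha
    rw [Set.Finite.mem_toFinset] at ha
    exact ⟨ha.1, ha.2⟩
  rw [Set.ncard_eq_toFinset_card _ hfin]
  exact card_all hR h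

theorem rho_gt {δ : ℝ} (hδ : 0 < δ) : 1 < √(1 + δ) := by
  rw [Real.lt_sqrt (by norm_num)]
  linarith

/-- `N ^ (1/4)` -/
theorem sqrt_sqrt_le {R N : ℕ} :
    √(3 * R * (Nat.sqrt N : ℕ)) ≤ √(3 * R) * √(√N) := by
  rw [← Real.sqrt_mul (by positivity)]
  apply Real.sqrt_le_sqrt
  gcongr
  exact Real.nat_sqrt_le_real_sqrt

/-- `g N / N ^ (1/4) → 0` -/
theorem g_small {g : ℕ → ℝ} (hg : ∀ᶠ N : ℕ in atTop, 0 < g N ∧ g N ≤ (N : ℝ) ^ (1 / 5 : ℝ)) :
    Tendsto (fun N : ℕ => g N * √(√N) / √N) atTop (𝓝 0) := by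
  have h1 : Tendsto (fun N : ℕ => (N : ℝ) ^ (-(1 / 20 : ℝ))) atTop (𝓝 0) :=
    (tendsto_rpow_neg_atTop (by norm_num)).comp tendsto_natCast_atTop_atTop
  refine squeeze_zero' ?_ ?_ h1
  · filter_upwards [hg] with N h
    have := h.1
    positivity
  · filter_upwards [hg, eventually_gt_atTop 0] with N h hN
    have hN' : (0 : ℝ) < N := by exact_mod_cast hN
    rw [Real.sqrt_eq_rpow, Real.sqrt_eq_rpow, ← Real.rpow_mul hN'.le, mul_div_assoc,
      ← Real.rpow_sub hN']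
    calc g N * (N : ℝ) ^ (1 / 2 * (1 / 2) - 1 / 2 : ℝ)
        ≤ (N : ℝ) ^ (1 / 5 : ℝ) * (N : ℝ) ^ (1 / 2 * (1 / 2) - 1 / 2 : ℝ) := by
          gcongr
          exact h.2
      _ = (N : ℝ) ^ (-(1 / 20 : ℝ)) := by
          rw [← Real.rpow_add hN']
          norm_num

/-- removing a small set -/
theorem removal {A B : Set ℕ} {g η : ℕ → ℝ} (hg : ∀ᶠ N : ℕ in atTop, 0 < g N)
    (hB : ∀ᶠ N : ℕ in atTop, ((B ∩ Set.Icc 1 N).ncard : ℝ) ≤ √N * η N)
    (hη : Tendsto (fun N => g N * η N) atTop (𝓝 0))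
    (hd : ∃ C : ℝ, 0 < C ∧ ∀ᶠ N : ℕ in atTop, √(N : ℝ) / g N ≤
      C * ((A ∩ Set.Icc 1 N).ncard : ℝ)) :
    ∃ C : ℝ, 0 < C ∧ ∀ᶠ N : ℕ in atTop, √(N : ℝ) / g N ≤
      C * (((A \ B) ∩ Set.Icc 1 N).ncard : ℝ) := by
  obtain ⟨C, hC, h⟩ := hd
  refine ⟨2 * C, by positivity, ?_⟩
  have h2 := hη.eventually_lt_const (show (0 : ℝ) < (2 * C)⁻¹ by positivity)
  filter_upwards [h, h2, hg, hB] with N h3 h4 h5 h6
  have h7 : ((A ∩ Set.Icc 1 N).ncard : ℝ) ≤
      (((A \ B) ∩ Set.Icc 1 N).ncard : ℝ) + ((B ∩ Set.Icc 1 N).ncard : ℝ) := by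
    have : (A ∩ Set.Icc 1 N) ⊆ ((A \ B) ∩ Set.Icc 1 N) ∪ (B ∩ Set.Icc 1 N) := by
      rintro a ⟨ha1, ha2⟩
      by_cases hab : a ∈ B
      · exact Or.inr ⟨hab, ha2⟩
      · exact Or.inl ⟨⟨ha1, hab⟩, ha2⟩
    have h8 := (Set.ncard_le_ncard this (((Set.finite_Icc 1 N).inter_of_right _).union
      ((Set.finite_Icc 1 N).inter_of_right _))).trans (Set.ncard_union_le _ _)
    exact_mod_cast h8
  have h8 : C * ((B ∩ Set.Icc 1 N).ncard : ℝ) ≤ √N / g N / 2 := by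
    have h9 : η N ≤ (2 * C)⁻¹ / g N := by
      rw [le_div_iff₀ h5, mul_comm]
      exact h4.le
    calc C * ((B ∩ Set.Icc 1 N).ncard : ℝ) ≤ C * (√N * ((2 * C)⁻¹ / g N)) := by
          gcongr
          refine h6.trans ?_
          gcongr
      _ = √N / g N / 2 := by
          field_simp
  have h9 : C * ((A ∩ Set.Icc 1 N).ncard : ℝ) ≤
      C * (((A \ B) ∩ Set.Icc 1 N).ncard : ℝ) + C * ((B ∩ Set.Icc 1 N).ncard : ℝ) := by
    rw [← mul_add]
    gcongr
  linarith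

/-- few elements of a set with bounded representation function lie in `S` -/
def RareBy (S : Set ℕ) (d : ℕ → ℝ) : Prop :=
  (∀ M, 0 ≤ d M) ∧ ∀ (A : Set ℕ) (R M N : ℕ), (∀ n, rep A n ≤ R) →
    (({a | a ∈ A ∧ a ∈ S ∧ M ≤ a} ∩ Set.Icc 1 N).ncard : ℝ) ≤ √(3 * R * N) * d M

/-- a bound for the number of elements of a rare set -/
theorem count_rare {S : Set ℕ} {d : ℕ → ℝ} (hS : RareBy S d) {A : Set ℕ} {R N : ℕ}
    (hR : ∀ n, rep A n ≤ R) :
    (({a | a ∈ A ∧ a ∈ S} ∩ Set.Icc 1 N).ncard : ℝ) ≤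
      √(3 * R) * (√(√N) + √N * d (Nat.sqrt N)) := by
  have h1 : ({a | a ∈ A ∧ a ∈ S} ∩ Set.Icc 1 N) ⊆ (A ∩ Set.Icc 1 (Nat.sqrt N)) ∪
      ({a | a ∈ A ∧ a ∈ S ∧ Nat.sqrt N ≤ a} ∩ Set.Icc 1 N) := by
    rintro a ⟨⟨ha1, ha2⟩, ha3, ha4⟩
    rcases le_total a (Nat.sqrt N) with h | h
    · exact Or.inl ⟨ha1, ha3, h⟩
    · exact Or.inr ⟨⟨ha1, ha2, h⟩, ha3, ha4⟩
  have h2 := Set.ncard_le_ncard h1 (((Set.finite_Icc 1 _).inter_of_right _).union
    ((Set.finite_Icc 1 N).inter_of_right _))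
  have h3 := h2.trans (Set.ncard_union_le _ _)
  have h4 : (({a | a ∈ A ∧ a ∈ S} ∩ Set.Icc 1 N).ncard : ℝ) ≤
      ((A ∩ Set.Icc 1 (Nat.sqrt N)).ncard : ℝ) +
        (({a | a ∈ A ∧ a ∈ S ∧ Nat.sqrt N ≤ a} ∩ Set.Icc 1 N).ncard : ℝ) := by
    exact_mod_cast h3
  refine h4.trans ?_
  rw [mul_add]
  refine add_le_add ((count_all hR).trans sqrt_sqrt_le) ?_
  refine (hS.2 A R _ N hR).trans (le_of_eq ?_)
  rw [Real.sqrt_mul (by positivity) (N : ℝ)]
  ring

/-- **Thresholds inside the class of the subsets of a rare set.** -/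
theorem threshold_rare {S : Set ℕ} {d : ℕ → ℝ} (hS : RareBy S d)
    {g : ℕ → ℝ} (hg : ∀ᶠ N : ℕ in atTop, 0 < g N ∧ g N ≤ (N : ℝ) ^ (1 / 5 : ℝ))
    (hg2 : Tendsto (fun N : ℕ => g N * d (Nat.sqrt N)) atTop (𝓝 0))
    {A : Set ℕ} (hA : ∀ a ∈ A, a ∈ S)
    (hd : ∃ c : ℝ, ∃ᶠ N : ℕ in atTop, √(N : ℝ) / g N ≤ c * ((A ∩ Set.Icc 1 N).ncard : ℝ)) :
    ∀ K : ℕ, ∃ m, K ≤ rep A m := by
  intro K
  by_contra hcon
  push Not at hcon
  have hR : ∀ n, rep A n ≤ K := fun n => (hcon n).le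
  obtain ⟨c, hc⟩ := hd
  have hAA : {a | a ∈ A ∧ a ∈ S} = A := by
    ext a
    exact ⟨fun h => h.1, fun h => ⟨h, hA a h⟩⟩
  have h1 : Tendsto (fun N : ℕ => |c| * (√(3 * K) * (g N * √(√N) / √N +
      g N * d (Nat.sqrt N)))) atTop (𝓝 (|c| * (√(3 * K) * (0 + 0)))) :=
    (((g_small hg).add hg2).const_mul _).const_mul _
  rw [add_zero, mul_zero, mul_zero] at h1
  have h2 := h1.eventually_lt_const (show (0 : ℝ) < 1 by norm_num)
  obtain ⟨N, h3, h4, h5, h6⟩ := (hc.and_eventually (h2.and (hg.and (eventually_gt_atTop 0)))).exists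
  have hN : (0 : ℝ) < √N := Real.sqrt_pos.2 (by exact_mod_cast h6)
  have h7 := count_rare (A := A) (N := N) hS hR
  rw [hAA] at h7
  have h8 : √(N : ℝ) / g N ≤ |c| * (√(3 * K) * (√(√N) + √N * d (Nat.sqrt N))) := by
    refine h3.trans ?_
    have : c * ((A ∩ Set.Icc 1 N).ncard : ℝ) ≤ |c| * ((A ∩ Set.Icc 1 N).ncard : ℝ) := by
      gcongr
      exact le_abs_self c
    refine this.trans ?_
    gcongr
  have h9 : 1 ≤ g N / √N * (|c| * (√(3 * K) * (√(√N) + √N * d (Nat.sqrt N)))) := by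
    have := mul_le_mul_of_nonneg_left h8 (show 0 ≤ g N / √N by have := h5.1; positivity)
    have h10 : g N / √N * (√N / g N) = 1 := by
      have := h5.1.ne'
      field_simp
    rwa [h10] at this
  have h10 : g N / √N * (|c| * (√(3 * K) * (√(√N) + √N * d (Nat.sqrt N)))) =
      |c| * (√(3 * K) * (g N * √(√N) / √N + g N * d (Nat.sqrt N))) := by
    field_simp
  rw [h10] at h9
  linarith

/-- **The elements of a rare set do not matter.** -/
theorem reduce_rare {S : Set ℕ} {d : ℕ → ℝ} (hS : RareBy S d)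
    {g : ℕ → ℝ} (hg : ∀ᶠ N : ℕ in atTop, 0 < g N ∧ g N ≤ (N : ℝ) ^ (1 / 5 : ℝ))
    (hg2 : Tendsto (fun N : ℕ => g N * d (Nat.sqrt N)) atTop (𝓝 0)) :
    ForcesIn (fun _ => True) g ↔ ForcesIn (fun A => ∀ a ∈ A, a ∉ S) g := by
  constructor
  · intro h A _ hA
    exact h A trivial hA
  · intro h A _ hA K
    by_contra hcon
    push Not at hcon
    have hR : ∀ n, rep A n ≤ K := fun n => (hcon n).le
    have h1 := removal (A := A) (B := {a | a ∈ A ∧ a ∈ S})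
      (hg.mono fun N h => h.1)
      (η := fun N => √(3 * K) * (√(√N) / √N + d (Nat.sqrt N))) (by
        filter_upwards [eventually_gt_atTop 0] with N hN
        have hN' : (0 : ℝ) < √N := Real.sqrt_pos.2 (by exact_mod_cast hN)
        refine (count_rare hS hR).trans (le_of_eq ?_)
        field_simp) (by
        have h1 : Tendsto (fun N : ℕ => √(3 * K) * (g N * √(√N) / √N +
            g N * d (Nat.sqrt N))) atTop (𝓝 (√(3 * K) * (0 + 0))) :=
          ((g_small hg).add hg2).const_mul _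
        rw [add_zero, mul_zero] at h1
        refine h1.congr fun N => ?_
        ring) hA
    obtain ⟨n, hn⟩ := h (A \ {a | a ∈ A ∧ a ∈ S})
      (fun a ha hr => ha.2 ⟨ha.1, hr⟩) h1 K
    exact absurd (hn.trans (rep_mono Set.sdiff_subset n)) (not_le.2 (hcon n))

/-- **Reduction to the sets which meet each member of a sequence of rare sets in a finite set.** -/
theorem reduce_seq {S : ℕ → Set ℕ} {d : ℕ → ℕ → ℝ} (hS : ∀ k, RareBy (S k) (d k))
    (hanti : ∀ k, Antitone (d k)) (he : ∀ k, Tendsto (d k) atTop (𝓝 0)) :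
    (∃ g : ℕ → ℝ, Tendsto g atTop atTop ∧ ForcesIn (fun _ => True) g) ↔
      ∃ g : ℕ → ℝ, Tendsto g atTop atTop ∧
        ForcesIn (fun A => ∀ k, {a | a ∈ A ∧ a ∈ S k}.Finite) g := by
  classical
  constructor
  · rintro ⟨g, hg, h⟩
    exact ⟨g, hg, fun A _ hA => h A trivial hA⟩
  rintro ⟨g, hg, h⟩
  have hM : ∀ k : ℕ, ∃ M : ℕ, k ≤ M ∧ d k M ≤ (1 / 2 : ℝ) ^ k := by
    intro k
    have h1 := (he k).eventually_lt_const (show (0 : ℝ) < (1 / 2 : ℝ) ^ k by positivity)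
    obtain ⟨M, h2, h3⟩ := (h1.and (eventually_ge_atTop k)).exists
    exact ⟨M, h3, h2.le⟩
  choose M hMk hM2 using hM
  let s : ℕ → ℕ → ℝ := fun N k => min ((1 / 2 : ℝ) ^ k) (d k (Nat.sqrt N))
  have hs0 : ∀ N k, 0 ≤ s N k := fun N k => le_min (by positivity) ((hS k).1 _)
  have hs1 : ∀ N k, s N k ≤ (1 / 2 : ℝ) ^ k := fun N k => min_le_left _ _
  have hgeo : Summable (fun k : ℕ => (1 / 2 : ℝ) ^ k) :=
    summable_geometric_of_lt_one (by norm_num) (by norm_num)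
  have hsqrt : Tendsto Nat.sqrt atTop atTop :=
    tendsto_atTop.2 fun b => (eventually_ge_atTop (b * b)).mono fun n hn => Nat.le_sqrt.2 hn
  let ε : ℕ → ℝ := fun N => ∑' k, s N k
  have hε : Tendsto ε atTop (𝓝 0) := by
    have h1 : Tendsto (fun N => ∑' k, s N k) atTop (𝓝 (∑' _ : ℕ, (0 : ℝ))) := by
      refine tendsto_tsum_of_dominated_convergence (bound := fun k : ℕ => (1 / 2 : ℝ) ^ k) hgeo
        (fun k => ?_) ?_
      · refine squeeze_zero (fun N => hs0 N k) (fun N => min_le_right _ _) ((he k).comp hsqrt)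
      · refine Eventually.of_forall fun N k => ?_
        rw [Real.norm_of_nonneg (hs0 N k)]
        exact hs1 N k
    rwa [tsum_zero] at h1
  have hε0 : ∀ N, 0 ≤ ε N := fun N => tsum_nonneg (hs0 N)
  have hsum : ∀ N, Summable (s N) := fun N => Summable.of_nonneg_of_le (hs0 N) (hs1 N) hgeo
  -- the slower function
  let θ : ℕ → ℝ := fun N => √(ε N + 1 / (N + 1 : ℝ))
  have hθpos : ∀ N, 0 < θ N := fun N => Real.sqrt_pos.2 (by have := hε0 N; positivity)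
  have hθ : Tendsto θ atTop (𝓝 0) := by
    have h1 := (hε.add tendsto_one_div_add_atTop_nhds_zero_nat).sqrt
    rwa [add_zero, Real.sqrt_zero] at h1
  let g' : ℕ → ℝ := fun N => min (g N) (min ((N : ℝ) ^ (1 / 5 : ℝ)) (θ N)⁻¹)
  have hg' : Tendsto g' atTop atTop := by
    refine tendsto_inf_atTop _ hg (tendsto_inf_atTop _ ?_ ?_)
    · exact (tendsto_rpow_atTop (by norm_num)).comp tendsto_natCast_atTop_atTop
    · refine Tendsto.inv_tendsto_nhdsGT_zero ?_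
      rw [tendsto_nhdsWithin_iff]
      exact ⟨hθ, Eventually.of_forall hθpos⟩
  have hg'1 : ∀ᶠ N : ℕ in atTop, 0 < g' N ∧ g' N ≤ (N : ℝ) ^ (1 / 5 : ℝ) := by
    filter_upwards [hg'.eventually_gt_atTop 0] with N hN
    exact ⟨hN, (min_le_right _ _).trans (min_le_left _ _)⟩
  refine ⟨g', hg', fun A _ hA K => ?_⟩
  by_contra hcon
  push Not at hcon
  have hR : ∀ n, rep A n ≤ K := fun n => (hcon n).le
  let B : Set ℕ := {a | a ∈ A ∧ ∃ k, M k ≤ a ∧ a ∈ S k}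
  have hB : ∀ᶠ N : ℕ in atTop, ((B ∩ Set.Icc 1 N).ncard : ℝ) ≤
      √N * (√(3 * K) * (√(√N) / √N + ε N)) := by
    filter_upwards [eventually_gt_atTop 0] with N hN
    have hN' : (0 : ℝ) < √N := Real.sqrt_pos.2 (by exact_mod_cast hN)
    let U : ℕ → Set ℕ := fun k =>
      {a | a ∈ A ∧ a ∈ S k ∧ max (Nat.sqrt N) (M k) ≤ a} ∩ Set.Icc 1 N
    have hUf : ∀ k, (U k).Finite := fun k => (Set.finite_Icc 1 N).inter_of_right _
    have h1 : B ∩ Set.Icc 1 N ⊆ (A ∩ Set.Icc 1 (Nat.sqrt N)) ∪ ⋃ k ∈ range (N + 1), U k := by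
      rintro a ⟨⟨ha1, k, ha2, ha3⟩, ha4, ha5⟩
      rcases le_total a (Nat.sqrt N) with hh | hh
      · exact Or.inl ⟨ha1, ha4, hh⟩
      · right
        rw [Set.mem_iUnion₂]
        refine ⟨k, ?_, ⟨ha1, ha3, max_le hh ha2⟩, ha4, ha5⟩
        rw [Finset.mem_range]
        have := hMk k
        omega
    have h2 : (B ∩ Set.Icc 1 N).ncard ≤ (A ∩ Set.Icc 1 (Nat.sqrt N)).ncard +
        ∑ k ∈ range (N + 1), (U k).ncard := by
      refine (Set.ncard_le_ncard h1 (((Set.finite_Icc 1 _).inter_of_right _).union ?_)).trans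
        ((Set.ncard_union_le _ _).trans (Nat.add_le_add_left ?_ _))
      · exact Set.Finite.biUnion (Finset.finite_toSet _) fun k _ => hUf k
      · exact Finset.set_ncard_biUnion_le _ _
    have h3 : ∀ k, ((U k).ncard : ℝ) ≤ √(3 * K) * √N * s N k := by
      intro k
      have h4 := (hS k).2 A K (max (Nat.sqrt N) (M k)) N hR
      refine h4.trans ?_
      rw [Real.sqrt_mul (by positivity) (N : ℝ)]
      gcongr
      refine le_min ?_ ?_
      · exact (hanti k (le_max_right _ _)).trans (hM2 k)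
      · exact hanti k (le_max_left _ _)
    have h4 : ((B ∩ Set.Icc 1 N).ncard : ℝ) ≤ ((A ∩ Set.Icc 1 (Nat.sqrt N)).ncard : ℝ) +
        ∑ k ∈ range (N + 1), ((U k).ncard : ℝ) := by exact_mod_cast h2
    calc ((B ∩ Set.Icc 1 N).ncard : ℝ) ≤ ((A ∩ Set.Icc 1 (Nat.sqrt N)).ncard : ℝ) +
        ∑ k ∈ range (N + 1), ((U k).ncard : ℝ) := h4
      _ ≤ √(3 * K) * √(√N) + ∑ k ∈ range (N + 1), √(3 * K) * √N * s N k :=
          add_le_add ((count_all hR).trans sqrt_sqrt_le) (sum_le_sum fun k _ => h3 k)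
      _ ≤ √(3 * K) * √(√N) + √(3 * K) * √N * ε N := by
          rw [← mul_sum]
          gcongr
          exact (hsum N).sum_le_tsum _ (fun k _ => hs0 N k)
      _ = √N * (√(3 * K) * (√(√N) / √N + ε N)) := by
          field_simp
  have h1 := removal (A := A) (B := B) (g := g') (hg'1.mono fun N h => h.1) hB (by
    have h2 : Tendsto (fun N : ℕ => g' N * ε N) atTop (𝓝 0) := by
      refine squeeze_zero' ?_ ?_ hθ
      · filter_upwards [hg'1] with N hN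
        exact mul_nonneg hN.1.le (hε0 N)
      · filter_upwards with N
        have h3 : g' N ≤ (θ N)⁻¹ := (min_le_right _ _).trans (min_le_right _ _)
        have h4 : ε N ≤ θ N * θ N := by
          rw [Real.mul_self_sqrt (by have := hε0 N; positivity)]
          have : (0 : ℝ) ≤ 1 / (N + 1 : ℝ) := by positivity
          linarith
        calc g' N * ε N ≤ (θ N)⁻¹ * ε N := mul_le_mul_of_nonneg_right h3 (hε0 N)
          _ ≤ (θ N)⁻¹ * (θ N * θ N) := by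
              have := (inv_pos.2 (hθpos N)).le
              gcongr
          _ = θ N := by
              have := (hθpos N).ne'
              field_simp
    have h3 := ((g_small hg'1).add h2).const_mul √(3 * K)
    rw [add_zero, mul_zero] at h3
    refine h3.congr fun N => ?_
    ring) hA
  obtain ⟨c, hc, h2⟩ := h1
  have h3 : ∀ k, {a | a ∈ A \ B ∧ a ∈ S k}.Finite := by
    intro k
    refine (Set.finite_Iio (M k)).subset ?_
    rintro a ⟨⟨ha1, ha2⟩, ha3⟩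
    rw [Set.mem_Iio]
    by_contra h4
    push Not at h4
    exact ha2 ⟨ha1, k, h4, ha3⟩
  obtain ⟨n, hn⟩ := h (A \ B) h3 ⟨c, hc, by
    filter_upwards [h2, hg'1] with N h4 h5
    refine le_trans ?_ h4
    have h6 : g' N ≤ g N := min_le_left _ _
    have := h5.1
    gcongr⟩ K
  exact absurd (hn.trans (rep_mono Set.sdiff_subset n)) (not_le.2 (hcon n))

end Pool.Agent.E8helper93.LS
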